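import Pool.Agent.H460SR.Start

set_option autoImplicit false

namespace Pool.Agent.H460SR

open Finset

variable {q g : ℕ}

lemma exists_fresh_set (U : Finset ℕ) (n : ℕ) : ∃ T : Finset ℕ, T.card = n ∧ Disjoint T U := by
  have hinf : ((U : Set ℕ)ᶜ).Infinite := Set.Finite.infinite_compl U.finite_toSet
  obtain ⟨T, hT, hc⟩ := hinf.exists_subset_card_eq n
  refine ⟨T, hc, ?_⟩
  rw [Finset.disjoint_left]; intro x hx hx'
  exact hT (Finset.mem_coe.2 hx) (Finset.mem_coe.2 hx')

/-- first phase, building group 1 -/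
def PosB (_q g : ℕ) (A D : Finset (Finset ℕ)) : Prop :=
  ∃ f1 ∈ A, ∃ K L : Finset ℕ, K.card = 3 * g + 1 ∧ Disjoint K L ∧ A.card = L.card ∧
    1 ≤ L.card ∧ L.card ≤ 2 * g ∧ (∀ a ∈ L, insert a K ∈ D) ∧ Disjoint f1 (K ∪ L)

/-- first phase, building group 2 -/
def PosC (q g : ℕ) (A D : Finset (Finset ℕ)) : Prop :=
  ∃ f1 ∈ A, ∃ I D1 D2 X1 X2 : Finset ℕ, Disjoint I D1 ∧ Disjoint I D2 ∧ Disjoint D1 D2 ∧
    I.card + 2 = 2 * q ∧ D1.card + 2 * q = 3 * g + 3 ∧ D2.card + 2 * q = 3 * g + 3 ∧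
    X1 ⊆ D2 ∧ X2 ⊆ D1 ∧ X1.card = 2 * g ∧ 1 ≤ X2.card ∧ X2.card ≤ g ∧
    A.card = 2 * g + X2.card ∧ (∀ a ∈ X1, insert a (I ∪ D1) ∈ D) ∧
    (∀ a ∈ X2, insert a (I ∪ D2) ∈ D) ∧ Disjoint f1 (I ∪ D1 ∪ D2) ∧
    (D1.filter (fun b => insert b (I ∪ D2) ∈ A ∪ D)).card + 1 ≤ 2 * X2.card

def Inv (q g : ℕ) (A D : Finset (Finset ℕ)) : Prop :=
  Disjoint A D ∧ (Copy q g D ∨ A = ∅ ∨ PosB q g A D ∨ PosC q g A D ∨ Pos2 q g A D)

lemma step_any (A D : Finset (Finset ℕ)) (g : ℕ) :
    ∃ e : Finset ℕ, e.card = 3 * g + 2 ∧ e ∉ A ∧ e ∉ D := by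
  obtain ⟨T, hT, hd⟩ := exists_fresh_set ((A ∪ D).biUnion id) (3 * g + 2)
  have key : T ∉ A ∪ D := by
    intro h
    have hne : T.Nonempty := by rw [← Finset.card_pos]; omega
    obtain ⟨x, hx⟩ := hne
    exact Finset.disjoint_left.1 hd hx (Finset.mem_biUnion.2 ⟨T, h, hx⟩)
  rw [Finset.mem_union, not_or] at key
  exact ⟨T, hT, key.1, key.2⟩

lemma step_A (hg : 4 * q + 10 ≤ g) {D : Finset (Finset ℕ)} {f : Finset ℕ} (hf : f ∉ D) :
    ∃ e : Finset ℕ, e.card = 3 * g + 2 ∧ e ∉ insert f (∅ : Finset (Finset ℕ)) ∧ e ∉ D ∧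
      PosB q g (insert f ∅) (insert e D) := by
  obtain ⟨T, hT, hd⟩ := exists_fresh_set ((insert f D).biUnion id) (3 * g + 2)
  have hne : T.Nonempty := by rw [← Finset.card_pos]; omega
  have key : T ∉ insert f D := by
    intro h
    obtain ⟨x, hx⟩ := hne
    exact Finset.disjoint_left.1 hd hx (Finset.mem_biUnion.2 ⟨T, h, hx⟩)
  rw [Finset.mem_insert, not_or] at key
  obtain ⟨a, ha⟩ := hne
  refine ⟨T, hT, by simpa using key.1, key.2, f, by simp, T.erase a, {a}, ?_, ?_, ?_, ?_, ?_, ?_, ?_⟩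
  · rw [Finset.card_erase_of_mem ha, hT]; omega
  · simp
  · simp
  · simp
  · simp; omega
  · intro b hb; rw [Finset.mem_singleton] at hb; subst hb
    rw [Finset.insert_erase ha]; exact Finset.mem_insert_self _ _
  · rw [Finset.disjoint_right]; intro x hx hxf
    have hxT : x ∈ T := by
      rcases Finset.mem_union.1 hx with h | h
      · exact Finset.mem_of_mem_erase h
      · rw [Finset.mem_singleton] at h; exact h ▸ ha
    exact Finset.disjoint_left.1 hd hxT (Finset.mem_biUnion.2 ⟨f, by simp, hxf⟩)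

lemma step_B (hg : 4 * q + 10 ≤ g) (hq : 3 ≤ q) {A D : Finset (Finset ℕ)} {f : Finset ℕ}
    (hfA : f ∉ A) (h : PosB q g A D) :
    ∃ e : Finset ℕ, e.card = 3 * g + 2 ∧ e ∉ insert f A ∧ e ∉ D ∧
      (PosB q g (insert f A) (insert e D) ∨ PosC q g (insert f A) (insert e D)) := by
  classical
  obtain ⟨f1, hf1, K, L, hK, hKL, hAL, h1, h2, hL, hf1KL⟩ := h
  have hAc : (insert f A).card = L.card + 1 := by
    rw [Finset.card_insert_of_notMem hfA, hAL]
  by_cases hlt : L.card < 2 * g
  · obtain ⟨a, ha1, ha2⟩ := exists_fresh (insert f A ∪ D) (K ∪ L)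
    rw [Finset.mem_union, not_or] at ha1
    have hn : ∀ S ⊆ insert f A ∪ D, insert a K ∉ S := fun S hS hh =>
      ha2 _ (hS hh) (Finset.mem_insert_self _ _)
    refine ⟨insert a K, by rw [Finset.card_insert_of_notMem ha1.1, hK],
      hn _ Finset.subset_union_left, hn _ Finset.subset_union_right, Or.inl ?_⟩
    refine ⟨f1, Finset.mem_insert_of_mem hf1, K, insert a L, hK, ?_, ?_, ?_, ?_, ?_, ?_⟩
    · rw [Finset.disjoint_insert_right]; exact ⟨ha1.1, hKL⟩
    · rw [hAc, Finset.card_insert_of_notMem ha1.2]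
    · rw [Finset.card_insert_of_notMem ha1.2]; omega
    · rw [Finset.card_insert_of_notMem ha1.2]; omega
    · intro b hb
      rcases Finset.mem_insert.1 hb with rfl | hb
      · exact Finset.mem_insert_self _ _
      · exact Finset.mem_insert_of_mem (hL b hb)
    · rw [Finset.disjoint_right]; intro x hx hxf
      rw [Finset.mem_union, Finset.mem_insert] at hx
      rcases hx with h | h | h
      · exact Finset.disjoint_left.1 hf1KL hxf (Finset.mem_union_left _ h)
      · subst h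
        exact ha2 f1 (Finset.mem_union_left _ (Finset.mem_insert_of_mem hf1)) hxf
      · exact Finset.disjoint_left.1 hf1KL hxf (Finset.mem_union_right _ h)
  · have hL2 : L.card = 2 * g := by omega
    obtain ⟨I, hIK, hIc⟩ := Finset.exists_subset_card_eq (s := K) (n := 2 * q - 2) (by omega)
    obtain ⟨Z, hZc, hZd⟩ := exists_fresh_set ((insert f A ∪ D).biUnion id ∪ (K ∪ L)) (g + 3 - 2 * q)
    have hZne : Z.Nonempty := by rw [← Finset.card_pos]; omega
    obtain ⟨ζ, hζ⟩ := hZne
    have hZe : ∀ e ∈ insert f A ∪ D, ∀ x ∈ Z, x ∉ e := by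
      intro e he x hx hxe
      exact Finset.disjoint_left.1 hZd hx (Finset.mem_union_left _ (Finset.mem_biUnion.2 ⟨e, he, hxe⟩))
    have hZK : ∀ x ∈ Z, x ∉ K := fun x hx h =>
      Finset.disjoint_left.1 hZd hx (Finset.mem_union_right _ (Finset.mem_union_left _ h))
    have hZL : ∀ x ∈ Z, x ∉ L := fun x hx h =>
      Finset.disjoint_left.1 hZd hx (Finset.mem_union_right _ (Finset.mem_union_right _ h))
    have hLK : ∀ x ∈ L, x ∉ K := fun x hx h => Finset.disjoint_left.1 hKL h hx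
    have hD1c : (K \ I).card + 2 * q = 3 * g + 3 := by
      rw [Finset.card_sdiff_of_subset hIK, hK, hIc]; omega
    have hdLZ : Disjoint L Z := by
      rw [Finset.disjoint_right]; exact fun x hx h => hZL x hx h
    obtain ⟨b, hb⟩ : (K \ I).Nonempty := by rw [← Finset.card_pos]; omega
    have hbK := Finset.mem_sdiff.1 hb
    have hIK2 : I ∪ (K \ I) = K := Finset.union_sdiff_of_subset hIK
    have hbn : b ∉ I ∪ (L ∪ Z) := by
      simp only [Finset.mem_union, not_or]
      exact ⟨hbK.2, fun h => hLK b h hbK.1, fun h => hZK b h hbK.1⟩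
    have hK2c : (I ∪ (L ∪ Z)).card = 3 * g + 1 := by
      rw [Finset.card_union_of_disjoint, Finset.card_union_of_disjoint hdLZ, hIc, hL2, hZc]
      · omega
      · rw [Finset.disjoint_left]; intro x hx hx'
        rcases Finset.mem_union.1 hx' with h | h
        · exact hLK x h (hIK hx)
        · exact hZK x h (hIK hx)
    have hin : ∀ c, ζ ∈ insert c (I ∪ (L ∪ Z)) := by
      intro c; simp [hζ]
    have hn : ∀ c, insert c (I ∪ (L ∪ Z)) ∉ insert f A ∪ D := fun c hh => hZe _ hh ζ hζ (hin c)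
    have hn' := hn b
    rw [Finset.mem_union, not_or] at hn'
    refine ⟨insert b (I ∪ (L ∪ Z)), by rw [Finset.card_insert_of_notMem hbn, hK2c],
      hn'.1, hn'.2, Or.inr ?_⟩
    refine ⟨f1, Finset.mem_insert_of_mem hf1, I, K \ I, L ∪ Z, L, {b}, Finset.disjoint_sdiff,
      ?_, ?_, ?_, hD1c, ?_, Finset.subset_union_left, by simpa using hbK, hL2, by simp, by simp; omega,
      ?_, ?_, ?_, ?_, ?_⟩
    · rw [Finset.disjoint_left]; intro x hx hx'
      rcases Finset.mem_union.1 hx' with h | h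
      · exact hLK x h (hIK hx)
      · exact hZK x h (hIK hx)
    · rw [Finset.disjoint_left]; intro x hx hx'
      rw [Finset.mem_sdiff] at hx
      rcases Finset.mem_union.1 hx' with h | h
      · exact hLK x h hx.1
      · exact hZK x h hx.1
    · rw [hIc]; omega
    · rw [Finset.card_union_of_disjoint hdLZ, hL2, hZc]; omega
    · rw [hAc, hL2, Finset.card_singleton]
    · intro a ha; rw [hIK2]; exact Finset.mem_insert_of_mem (hL a ha)
    · intro a ha; rw [Finset.mem_singleton] at ha; subst ha; exact Finset.mem_insert_self _ _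
    · rw [hIK2, Finset.disjoint_right]; intro x hx hxf
      rcases Finset.mem_union.1 hx with h | h
      · exact Finset.disjoint_left.1 hf1KL hxf (Finset.mem_union_left _ h)
      · rcases Finset.mem_union.1 h with h | h
        · exact Finset.disjoint_left.1 hf1KL hxf (Finset.mem_union_right _ h)
        · exact hZe f1 (Finset.mem_union_left _ (Finset.mem_insert_of_mem hf1)) x h hxf
    · have hsub : (K \ I).filter (fun c => insert c (I ∪ (L ∪ Z)) ∈
          insert f A ∪ insert (insert b (I ∪ (L ∪ Z))) D) ⊆ {b} := by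
        intro c hc
        rw [Finset.mem_filter] at hc
        obtain ⟨hc1, hc2⟩ := hc
        rw [Finset.mem_singleton]
        have hcK := Finset.mem_sdiff.1 hc1
        have hcn : c ∉ I ∪ (L ∪ Z) := by
          simp only [Finset.mem_union, not_or]
          exact ⟨hcK.2, fun h => hLK c h hcK.1, fun h => hZK c h hcK.1⟩
        rw [Finset.mem_union, Finset.mem_insert (s := D)] at hc2
        rcases hc2 with h | h | h
        · exact absurd (Finset.mem_union_left _ h) (hn c)
        · exact Core.insert_inj hcn h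
        · exact absurd (Finset.mem_union_right _ h) (hn c)
      have := Finset.card_le_card hsub
      rw [Finset.card_singleton] at this ⊢; omega

lemma step_C (hg : 4 * q + 10 ≤ g) (hq : 3 ≤ q) {A D : Finset (Finset ℕ)} {f : Finset ℕ}
    (hfA : f ∉ A) (hfD : f ∉ D) (hAD : Disjoint A D) (h : PosC q g A D) :
    ∃ e : Finset ℕ, e.card = 3 * g + 2 ∧ e ∉ insert f A ∧ e ∉ D ∧
      (PosC q g (insert f A) (insert e D) ∨ Pos2 q g (insert f A) (insert e D)) := by
  classical
  obtain ⟨f1, hf1, I, D1, D2, X1, X2, hI1, hI2, h12, cI, c1, c2, x1, x2, cX1, hX2, hX2', hAc,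
    e1, e2, hf1V, hcnt⟩ := h
  have hAc' : (insert f A).card = 2 * g + X2.card + 1 := by
    rw [Finset.card_insert_of_notMem hfA, hAc]
  by_cases hlt : X2.card < g
  · have hbn : ∀ c ∈ D1, c ∉ I ∪ D2 := by
      intro c hc hh
      rcases Finset.mem_union.1 hh with h | h
      · exact Finset.disjoint_left.1 hI1 h hc
      · exact Finset.disjoint_left.1 h12 hc h
    have hK2 : (I ∪ D2).card = 3 * g + 1 := by
      rw [Finset.card_union_of_disjoint hI2]; omega
    -- adding one edge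
    have hadd : ∀ (S : Finset (Finset ℕ)) (x : Finset ℕ),
        (D1.filter (fun b => insert b (I ∪ D2) ∈ insert x S)).card ≤
        (D1.filter (fun b => insert b (I ∪ D2) ∈ S)).card + 1 := by
      intro S x
      by_cases hx : ∃ c ∈ D1, insert c (I ∪ D2) = x
      · obtain ⟨c, hc, rfl⟩ := hx
        have : D1.filter (fun b => insert b (I ∪ D2) ∈ insert (insert c (I ∪ D2)) S) ⊆
            insert c (D1.filter (fun b => insert b (I ∪ D2) ∈ S)) := by
          intro b hb
          rw [Finset.mem_filter, Finset.mem_insert] at hb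
          rw [Finset.mem_insert, Finset.mem_filter]
          rcases hb.2 with h | h
          · exact Or.inl (Core.insert_inj (hbn b hb.1) h)
          · exact Or.inr ⟨hb.1, h⟩
        exact (Finset.card_le_card this).trans (Finset.card_insert_le _ _)
      · have : D1.filter (fun b => insert b (I ∪ D2) ∈ insert x S) ⊆
            (D1.filter (fun b => insert b (I ∪ D2) ∈ S)) := by
          intro b hb
          rw [Finset.mem_filter, Finset.mem_insert] at hb
          rw [Finset.mem_filter]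
          rcases hb.2 with h | h
          · exact absurd ⟨b, hb.1, h⟩ hx
          · exact ⟨hb.1, h⟩
        exact (Finset.card_le_card this).trans (Nat.le_succ _)
    have hcnt2 : (D1.filter (fun b => insert b (I ∪ D2) ∈ insert f A ∪ D)).card ≤ 2 * X2.card := by
      have := hadd (A ∪ D) f
      rw [Finset.insert_union]; omega
    have hex : ∃ b ∈ D1, insert b (I ∪ D2) ∉ insert f A ∪ D := by
      by_contra hc
      push Not at hc
      have : D1.filter (fun b => insert b (I ∪ D2) ∈ insert f A ∪ D) = D1 :=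
        Finset.filter_true_of_mem hc
      rw [this] at hcnt2; omega
    obtain ⟨b, hb, hbn2⟩ := hex
    have hbn3 := hbn2
    rw [Finset.mem_union, not_or] at hbn3
    refine ⟨insert b (I ∪ D2), by rw [Finset.card_insert_of_notMem (hbn b hb), hK2],
      hbn3.1, hbn3.2, Or.inl ?_⟩
    have hbX : b ∉ X2 := fun h => hbn3.2 (e2 b h)
    have hXc : (insert b X2).card = X2.card + 1 := Finset.card_insert_of_notMem hbX
    refine ⟨f1, Finset.mem_insert_of_mem hf1, I, D1, D2, X1, insert b X2, hI1, hI2, h12, cI, c1, c2,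
      x1, ?_, cX1, by omega, by omega, by omega, fun a ha => Finset.mem_insert_of_mem (e1 a ha), ?_,
      hf1V, ?_⟩
    · intro x hx; rcases Finset.mem_insert.1 hx with rfl | hx
      · exact hb
      · exact x2 hx
    · intro a ha; rcases Finset.mem_insert.1 ha with rfl | ha
      · exact Finset.mem_insert_self _ _
      · exact Finset.mem_insert_of_mem (e2 a ha)
    · have := hadd (insert f A ∪ D) (insert b (I ∪ D2))
      rw [Finset.union_insert]; omega
  · let CS : Core q g := ⟨I, D1, D2, X1, X2, hI1, hI2, h12, cI, c1, c2, x1, x2, cX1, by omega⟩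
    have hAD' : Disjoint (insert f A) D := by
      rw [Finset.disjoint_insert_left]; exact ⟨hfD, hAD⟩
    have hCS : CS.E ⊆ D := by
      intro e he
      rcases CS.mem_E.1 he with he | he
      · obtain ⟨a, ha, rfl⟩ := CS.mem_G1.1 he; exact e1 a ha
      · obtain ⟨a, ha, rfl⟩ := CS.mem_G2.1 he; exact e2 a ha
    obtain ⟨e, h1, h2, h3, h4⟩ := start2 hg hq CS (A := insert f A) (D := D) (by omega) hAD' hCS
      (Finset.mem_insert_of_mem hf1) hf1V
    exact ⟨e, h1, h2, h3, Or.inr h4⟩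

lemma Pos2.disj {A D : Finset (Finset ℕ)} (h : Pos2 q g A D) : Disjoint A D := by
  obtain ⟨CS, E1, R, P, F, f1, w, h⟩ := h; exact h.hAD

lemma Inv.step (hg : 4 * q + 10 ≤ g) (hq : 3 ≤ q) {A D : Finset (Finset ℕ)} {f : Finset ℕ}
    (h : Inv q g A D) (hfA : f ∉ A) (hfD : f ∉ D) :
    ∃ e : Finset ℕ, e.card = 3 * g + 2 ∧ e ∉ insert f A ∧ e ∉ D ∧
      Inv q g (insert f A) (insert e D) := by
  obtain ⟨hAD, h⟩ := h
  have hdisj : ∀ e : Finset ℕ, e ∉ insert f A → Disjoint (insert f A) (insert e D) := by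
    intro e he; rw [Finset.disjoint_insert_right, Finset.disjoint_insert_left]
    exact ⟨he, hfD, hAD⟩
  rcases h with h | h | h | h | h
  · obtain ⟨e, h1, h2, h3⟩ := step_any (insert f A) D g
    exact ⟨e, h1, h2, h3, hdisj e h2, Or.inl (h.mono (Finset.subset_insert _ _))⟩
  · subst h
    obtain ⟨e, h1, h2, h3, h4⟩ := step_A (q := q) hg hfD
    exact ⟨e, h1, h2, h3, hdisj e h2, Or.inr (Or.inr (Or.inl h4))⟩
  · obtain ⟨e, h1, h2, h3, h4 | h4⟩ := step_B hg hq hfA h
    · exact ⟨e, h1, h2, h3, hdisj e h2, Or.inr (Or.inr (Or.inl h4))⟩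
    · exact ⟨e, h1, h2, h3, hdisj e h2, Or.inr (Or.inr (Or.inr (Or.inl h4)))⟩
  · obtain ⟨e, h1, h2, h3, h4 | h4⟩ := step_C hg hq hfA hfD hAD h
    · exact ⟨e, h1, h2, h3, hdisj e h2, Or.inr (Or.inr (Or.inr (Or.inl h4)))⟩
    · exact ⟨e, h1, h2, h3, hdisj e h2, Or.inr (Or.inr (Or.inr (Or.inr h4)))⟩
  · obtain ⟨CS, E1, R, P, F, f1, w, h⟩ := h
    obtain ⟨e, h1, h2, h3, h4 | h4⟩ := h.step hg (by omega) hfA hfD
    · exact ⟨e, h1, h2, h3, hdisj e h2, Or.inr (Or.inr (Or.inr (Or.inr h4)))⟩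
    · exact ⟨e, h1, h2, h3, hdisj e h2, Or.inl h4⟩

lemma Inv.safe (hg : 4 * q + 10 ≤ g) (hq : 3 ≤ q) {A D : Finset (Finset ℕ)} {f : Finset ℕ}
    (h : Inv q g A D) (hfD : f ∉ D) (hc : Copy q g (insert f A)) : Copy q g D := by
  have h1 := hc.card_le hg
  have h2 : (insert f A).card ≤ A.card + 1 := Finset.card_insert_le _ _
  obtain ⟨hAD, h⟩ := h
  rcases h with h | h | h | h | h
  · exact h
  · subst h; simp at h1; omega
  · obtain ⟨f1, hf1, K, L, hK, hKL, hAL, h3, h4, -⟩ := h; omega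
  · obtain ⟨f1, hf1, I, D1, D2, X1, X2, -, -, -, -, -, -, -, -, -, -, h3, h4, -⟩ := h; omega
  · obtain ⟨CS, E1, R, P, F, f1, w, h⟩ := h
    exact absurd hc (h.safe hg (by omega) hfD)

end Pool.Agent.H460SR
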