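import Mathlib

set_option autoImplicit false

namespace Pool.Agent.H460SR

open Finset

/-- A core: two kernels `I ∪ D1`, `I ∪ D2`, with leaves `X1 ⊆ D2` and `X2 ⊆ D1`. -/
@[ext]
structure Core (q g : ℕ) where
  I : Finset ℕ
  D1 : Finset ℕ
  D2 : Finset ℕ
  X1 : Finset ℕ
  X2 : Finset ℕ
  dI1 : Disjoint I D1
  dI2 : Disjoint I D2
  d12 : Disjoint D1 D2
  cI : I.card + 2 = 2 * q
  c1 : D1.card + 2 * q = 3 * g + 3
  c2 : D2.card + 2 * q = 3 * g + 3
  x1 : X1 ⊆ D2
  x2 : X2 ⊆ D1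
  cX1 : X1.card = 2 * g
  cX2 : X2.card = g

namespace Core

variable {q g : ℕ} (C : Core q g)

def K1 : Finset ℕ := C.I ∪ C.D1
def K2 : Finset ℕ := C.I ∪ C.D2
def V : Finset ℕ := C.I ∪ C.D1 ∪ C.D2
def X : Finset ℕ := C.X1 ∪ C.X2
def G1 : Finset (Finset ℕ) := C.X1.image (fun a => insert a C.K1)
def G2 : Finset (Finset ℕ) := C.X2.image (fun a => insert a C.K2)
def E : Finset (Finset ℕ) := C.G1 ∪ C.G2
def star (y z : ℕ) : Finset ℕ := insert z (insert y C.X)

/-- number of star edges at `z` in `S` -/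
def s (S : Finset (Finset ℕ)) (z : ℕ) : ℕ := (C.I.filter (fun y => C.star y z ∈ S)).card

lemma nI1 {v : ℕ} (h : v ∈ C.I) : v ∉ C.D1 := Finset.disjoint_left.1 C.dI1 h
lemma nI2 {v : ℕ} (h : v ∈ C.I) : v ∉ C.D2 := Finset.disjoint_left.1 C.dI2 h
lemma n12 {v : ℕ} (h : v ∈ C.D1) : v ∉ C.D2 := Finset.disjoint_left.1 C.d12 h
lemma n21 {v : ℕ} (h : v ∈ C.D2) : v ∉ C.D1 := Finset.disjoint_right.1 C.d12 h
lemma n1I {v : ℕ} (h : v ∈ C.D1) : v ∉ C.I := Finset.disjoint_right.1 C.dI1 h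
lemma n2I {v : ℕ} (h : v ∈ C.D2) : v ∉ C.I := Finset.disjoint_right.1 C.dI2 h

lemma mem_K1 {v : ℕ} : v ∈ C.K1 ↔ v ∈ C.I ∨ v ∈ C.D1 := by simp [K1]
lemma mem_K2 {v : ℕ} : v ∈ C.K2 ↔ v ∈ C.I ∨ v ∈ C.D2 := by simp [K2]
lemma mem_V {v : ℕ} : v ∈ C.V ↔ v ∈ C.I ∨ v ∈ C.D1 ∨ v ∈ C.D2 := by simp [V]
lemma mem_X {v : ℕ} : v ∈ C.X ↔ v ∈ C.X1 ∨ v ∈ C.X2 := by simp [X]

lemma cK1 : C.K1.card = 3 * g + 1 := by
  rw [K1, Finset.card_union_of_disjoint C.dI1]
  have := C.cI; have := C.c1; omega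
lemma cK2 : C.K2.card = 3 * g + 1 := by
  rw [K2, Finset.card_union_of_disjoint C.dI2]
  have := C.cI; have := C.c2; omega

lemma K1V : C.K1 ⊆ C.V := by intro v; simp only [mem_K1, mem_V]; tauto
lemma K2V : C.K2 ⊆ C.V := by intro v; simp only [mem_K2, mem_V]; tauto

lemma a_notK1 {a : ℕ} (h : a ∈ C.X1) : a ∉ C.K1 := by
  rw [mem_K1]; have := C.x1 h
  rintro (h1 | h1)
  · exact C.nI2 h1 this
  · exact C.n12 h1 this
lemma b_notK2 {a : ℕ} (h : a ∈ C.X2) : a ∉ C.K2 := by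
  rw [mem_K2]; have := C.x2 h
  rintro (h1 | h1)
  · exact C.nI1 h1 this
  · exact C.n21 h1 this
lemma a_K2 {a : ℕ} (h : a ∈ C.X1) : a ∈ C.K2 := C.mem_K2.2 (Or.inr (C.x1 h))
lemma b_K1 {a : ℕ} (h : a ∈ C.X2) : a ∈ C.K1 := C.mem_K1.2 (Or.inr (C.x2 h))

lemma XV : C.X ⊆ C.V := by
  intro v; rw [mem_X, mem_V]
  rintro (h | h)
  · exact Or.inr (Or.inr (C.x1 h))
  · exact Or.inr (Or.inl (C.x2 h))
lemma IV : C.I ⊆ C.V := by intro v h; rw [mem_V]; exact Or.inl h
lemma XI {v : ℕ} (h : v ∈ C.X) : v ∉ C.I := by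
  rw [mem_X] at h
  rcases h with h | h
  · exact C.n2I (C.x1 h)
  · exact C.n1I (C.x2 h)

lemma dX : Disjoint C.X1 C.X2 := by
  rw [Finset.disjoint_left]; intro v h1 h2
  exact C.n12 (C.x2 h2) (C.x1 h1)

lemma cX : C.X.card = 3 * g := by
  rw [X, Finset.card_union_of_disjoint C.dX, C.cX1, C.cX2]; ring

lemma cstar {y z : ℕ} (hy : y ∈ C.I) (hz : z ∉ C.V) : (C.star y z).card = 3 * g + 2 := by
  have h1 : y ∉ C.X := fun h => C.XI h hy
  have h2 : z ∉ insert y C.X := by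
    rw [Finset.mem_insert]; rintro (h | h)
    · exact hz (h ▸ C.IV hy)
    · exact hz (C.XV h)
  rw [star, Finset.card_insert_of_notMem h2, Finset.card_insert_of_notMem h1, C.cX]

lemma mem_G1 {e : Finset ℕ} : e ∈ C.G1 ↔ ∃ a ∈ C.X1, insert a C.K1 = e := by simp [G1]
lemma mem_G2 {e : Finset ℕ} : e ∈ C.G2 ↔ ∃ a ∈ C.X2, insert a C.K2 = e := by simp [G2]
lemma mem_E {e : Finset ℕ} : e ∈ C.E ↔ e ∈ C.G1 ∨ e ∈ C.G2 := by simp [E]
lemma G1E : C.G1 ⊆ C.E := Finset.subset_union_left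
lemma G2E : C.G2 ⊆ C.E := Finset.subset_union_right

lemma insert_inj {K : Finset ℕ} {a b : ℕ} (ha : a ∉ K) (h : insert a K = insert b K) : a = b := by
  have : a ∈ insert b K := h ▸ Finset.mem_insert_self a K
  rcases Finset.mem_insert.1 this with h | h
  · exact h
  · exact absurd h ha

lemma cG1 : C.G1.card = 2 * g := by
  rw [G1, Finset.card_image_of_injOn, C.cX1]
  intro a ha b hb h
  exact insert_inj (C.a_notK1 ha) h
lemma cG2 : C.G2.card = g := by
  rw [G2, Finset.card_image_of_injOn, C.cX2]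
  intro a ha b hb h
  exact insert_inj (C.b_notK2 ha) h

lemma E_sub_V {e : Finset ℕ} (h : e ∈ C.E) : e ⊆ C.V := by
  rw [mem_E, mem_G1, mem_G2] at h
  rcases h with ⟨a, ha, rfl⟩ | ⟨a, ha, rfl⟩
  · intro v hv; rcases Finset.mem_insert.1 hv with rfl | hv
    · exact C.K2V (C.a_K2 ha)
    · exact C.K1V hv
  · intro v hv; rcases Finset.mem_insert.1 hv with rfl | hv
    · exact C.K1V (C.b_K1 ha)
    · exact C.K2V hv

lemma E_card {e : Finset ℕ} (h : e ∈ C.E) : e.card = 3 * g + 2 := by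
  rw [mem_E, mem_G1, mem_G2] at h
  rcases h with ⟨a, ha, rfl⟩ | ⟨a, ha, rfl⟩
  · rw [Finset.card_insert_of_notMem (C.a_notK1 ha), C.cK1]
  · rw [Finset.card_insert_of_notMem (C.b_notK2 ha), C.cK2]

lemma inter_G1 {e e' : Finset ℕ} (h : e ∈ C.G1) (h' : e' ∈ C.G1) (hne : e ≠ e') :
    e ∩ e' = C.K1 := by
  rw [mem_G1] at h h'
  obtain ⟨a, ha, rfl⟩ := h; obtain ⟨b, hb, rfl⟩ := h'
  have hab : a ≠ b := fun h => hne (by rw [h])
  ext v; simp only [Finset.mem_inter, Finset.mem_insert]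
  constructor
  · rintro ⟨rfl | h, h' | h'⟩
    · exact absurd h' hab
    · exact h'
    · exact h
    · exact h
  · intro h; exact ⟨Or.inr h, Or.inr h⟩
lemma inter_G2 {e e' : Finset ℕ} (h : e ∈ C.G2) (h' : e' ∈ C.G2) (hne : e ≠ e') :
    e ∩ e' = C.K2 := by
  rw [mem_G2] at h h'
  obtain ⟨a, ha, rfl⟩ := h; obtain ⟨b, hb, rfl⟩ := h'
  have hab : a ≠ b := fun h => hne (by rw [h])
  ext v; simp only [Finset.mem_inter, Finset.mem_insert]
  constructor
  · rintro ⟨rfl | h, h' | h'⟩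
    · exact absurd h' hab
    · exact h'
    · exact h
    · exact h
  · intro h; exact ⟨Or.inr h, Or.inr h⟩

lemma inter_cross {e e' : Finset ℕ} (h : e ∈ C.G1) (h' : e' ∈ C.G2) :
    (e ∩ e').card ≤ 2 * q := by
  rw [mem_G1] at h; rw [mem_G2] at h'
  obtain ⟨a, ha, rfl⟩ := h; obtain ⟨b, hb, rfl⟩ := h'
  have : insert a C.K1 ∩ insert b C.K2 ⊆ insert a (insert b C.I) := by
    intro v; simp only [Finset.mem_inter, Finset.mem_insert, mem_K1, mem_K2]
    rintro ⟨h1, h2⟩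
    rcases h1 with h1 | h1 | h1
    · exact Or.inl h1
    · exact Or.inr (Or.inr h1)
    · rcases h2 with h2 | h2 | h2
      · exact Or.inr (Or.inl h2)
      · exact Or.inr (Or.inr h2)
      · exact absurd h2 (C.n12 h1)
  calc _ ≤ _ := Finset.card_le_card this
    _ ≤ (insert b C.I).card + 1 := Finset.card_insert_le _ _
    _ ≤ C.I.card + 1 + 1 := by gcongr; exact Finset.card_insert_le _ _
    _ = 2 * q := by have := C.cI; omega

lemma K_inter : C.K1 ∩ C.K2 = C.I := by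
  ext v; simp only [Finset.mem_inter, mem_K1, mem_K2]
  constructor
  · rintro ⟨h1 | h1, h2 | h2⟩
    · exact h1
    · exact h1
    · exact h2
    · exact absurd h2 (C.n12 h1)
  · intro h; exact ⟨Or.inl h, Or.inl h⟩
lemma D1_eq : C.D1 = C.K1 \ C.I := by
  ext v; simp only [Finset.mem_sdiff, mem_K1]
  constructor
  · intro h; exact ⟨Or.inr h, C.n1I h⟩
  · rintro ⟨h | h, h'⟩
    · exact absurd h h'
    · exact h
lemma D2_eq : C.D2 = C.K2 \ C.I := by
  ext v; simp only [Finset.mem_sdiff, mem_K2]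
  constructor
  · intro h; exact ⟨Or.inr h, C.n2I h⟩
  · rintro ⟨h | h, h'⟩
    · exact absurd h h'
    · exact h
lemma X1_eq : C.X1 = C.X ∩ C.D2 := by
  ext v; simp only [Finset.mem_inter, mem_X]
  constructor
  · intro h; exact ⟨Or.inl h, C.x1 h⟩
  · rintro ⟨h | h, h'⟩
    · exact h
    · exact absurd h' (C.n12 (C.x2 h))
lemma X2_eq : C.X2 = C.X ∩ C.D1 := by
  ext v; simp only [Finset.mem_inter, mem_X]
  constructor
  · intro h; exact ⟨Or.inr h, C.x2 h⟩
  · rintro ⟨h | h, h'⟩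
    · exact absurd h' (C.n21 (C.x1 h))
    · exact h

lemma dG (hg : 4 * q + 10 ≤ g) : Disjoint C.G1 C.G2 := by
  rw [Finset.disjoint_left]; intro e h1 h2
  have := C.inter_cross h1 h2
  rw [Finset.inter_self, C.E_card (C.G1E h1)] at this
  omega
lemma cE (hg : 4 * q + 10 ≤ g) : C.E.card = 3 * g := by
  rw [E, Finset.card_union_of_disjoint (C.dG hg), C.cG1, C.cG2]; ring

/-- every vertex of the core lies in at least `g` edges of one group -/
lemma vertex_group {v : ℕ} (h : v ∈ C.V) : (∀ e ∈ C.G1, v ∈ e) ∨ (∀ e ∈ C.G2, v ∈ e) := by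
  rw [mem_V] at h
  rcases h with h | h | h
  · left; intro e he; rw [mem_G1] at he; obtain ⟨a, _, rfl⟩ := he
    exact Finset.mem_insert_of_mem (C.mem_K1.2 (Or.inl h))
  · left; intro e he; rw [mem_G1] at he; obtain ⟨a, _, rfl⟩ := he
    exact Finset.mem_insert_of_mem (C.mem_K1.2 (Or.inr h))
  · right; intro e he; rw [mem_G2] at he; obtain ⟨a, _, rfl⟩ := he
    exact Finset.mem_insert_of_mem (C.mem_K2.2 (Or.inr h))

end Core

variable {q g : ℕ}

/-- same frame -/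
def SF (C C' : Core q g) : Prop := C.I = C'.I ∧ C.D1 = C'.D1 ∧ C.D2 = C'.D2

lemma SF.symm {C C' : Core q g} (h : SF C C') : SF C' C := ⟨h.1.symm, h.2.1.symm, h.2.2.symm⟩
lemma SF.trans {C C' C'' : Core q g} (h : SF C C') (h' : SF C' C'') : SF C C'' :=
  ⟨h.1.trans h'.1, h.2.1.trans h'.2.1, h.2.2.trans h'.2.2⟩
lemma SF.V {C C' : Core q g} (h : SF C C') : C.V = C'.V := by
  simp only [Core.V, h.1, h.2.1, h.2.2]
lemma SF.K1 {C C' : Core q g} (h : SF C C') : C.K1 = C'.K1 := by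
  simp only [Core.K1, h.1, h.2.1]
lemma SF.K2 {C C' : Core q g} (h : SF C C') : C.K2 = C'.K2 := by
  simp only [Core.K2, h.1, h.2.2]

lemma SF.eq_of_X {C C' : Core q g} (h : SF C C') (hX : C.X = C'.X) : C = C' := by
  have h1 : C.X1 = C'.X1 := by rw [C.X1_eq, C'.X1_eq, hX, h.2.2]
  have h2 : C.X2 = C'.X2 := by rw [C.X2_eq, C'.X2_eq, hX, h.2.1]
  exact Core.ext h.1 h.2.1 h.2.2 h1 h2

lemma exists_pair {S T : Finset (Finset ℕ)} (h : 2 ≤ (S ∩ T).card) :
    ∃ e e', e ∈ S ∧ e' ∈ S ∧ e ∈ T ∧ e' ∈ T ∧ e ≠ e' := by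
  obtain ⟨e, he, e', he', hne⟩ := Finset.one_lt_card.1 (by omega : 1 < (S ∩ T).card)
  rw [Finset.mem_inter] at he he'
  exact ⟨e, e', he.1, he'.1, he.2, he'.2, hne⟩

lemma kernel2 {C C' : Core q g} (h : 3 ≤ (C.G2 ∩ C'.E).card) : C.K2 = C'.K1 ∨ C.K2 = C'.K2 := by
  have h1 : C.G2 ∩ C'.E = (C.G2 ∩ C'.G1) ∪ (C.G2 ∩ C'.G2) := by
    rw [Core.E, Finset.inter_union_distrib_left]
  have h2 : 3 ≤ (C.G2 ∩ C'.G1).card + (C.G2 ∩ C'.G2).card := by
    rw [h1] at h; exact h.trans (Finset.card_union_le _ _)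
  rcases (by omega : 2 ≤ (C.G2 ∩ C'.G1).card ∨ 2 ≤ (C.G2 ∩ C'.G2).card) with h3 | h3
  · obtain ⟨e, e', he, he', hf, hf', hne⟩ := exists_pair h3
    left; rw [← C.inter_G2 he he' hne, C'.inter_G1 hf hf' hne]
  · obtain ⟨e, e', he, he', hf, hf', hne⟩ := exists_pair h3
    right; rw [← C.inter_G2 he he' hne, C'.inter_G2 hf hf' hne]

lemma kernel1 {C C' : Core q g} (h : 3 ≤ (C.G1 ∩ C'.E).card) : C.K1 = C'.K1 ∨ C.K1 = C'.K2 := by
  have h1 : C.G1 ∩ C'.E = (C.G1 ∩ C'.G1) ∪ (C.G1 ∩ C'.G2) := by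
    rw [Core.E, Finset.inter_union_distrib_left]
  have h2 : 3 ≤ (C.G1 ∩ C'.G1).card + (C.G1 ∩ C'.G2).card := by
    rw [h1] at h; exact h.trans (Finset.card_union_le _ _)
  rcases (by omega : 2 ≤ (C.G1 ∩ C'.G1).card ∨ 2 ≤ (C.G1 ∩ C'.G2).card) with h3 | h3
  · obtain ⟨e, e', he, he', hf, hf', hne⟩ := exists_pair h3
    left; rw [← C.inter_G1 he he' hne, C'.inter_G1 hf hf' hne]
  · obtain ⟨e, e', he, he', hf, hf', hne⟩ := exists_pair h3
    right; rw [← C.inter_G1 he he' hne, C'.inter_G2 hf hf' hne]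

/-- rigidity: cores sharing most edges have the same frame -/
lemma same_frame (hg : 4 * q + 10 ≤ g) {C C' : Core q g} (h : (C.E \ C'.E).card + 3 ≤ g) :
    SF C C' := by
  have a2 : (C.G2 \ C'.E).card ≤ (C.E \ C'.E).card :=
    Finset.card_le_card (Finset.sdiff_subset_sdiff C.G2E (le_refl _))
  have a1 : (C.G1 \ C'.E).card ≤ (C.E \ C'.E).card :=
    Finset.card_le_card (Finset.sdiff_subset_sdiff C.G1E (le_refl _))
  have b2 : (C.G2 \ C'.E).card + (C.G2 ∩ C'.E).card = C.G2.card :=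
    Finset.card_sdiff_add_card_inter _ _
  have b1 : (C.G1 \ C'.E).card + (C.G1 ∩ C'.E).card = C.G1.card :=
    Finset.card_sdiff_add_card_inter _ _
  have c1 := C.cG1; have c2 := C.cG2; have c2' := C'.cG2
  have k2 := kernel2 (C := C) (C' := C') (by omega)
  have h1 : C.G1 ∩ C'.E = (C.G1 ∩ C'.G1) ∪ (C.G1 ∩ C'.G2) := by
    rw [Core.E, Finset.inter_union_distrib_left]
  have h2 : (C.G1 ∩ C'.E).card ≤ (C.G1 ∩ C'.G1).card + (C.G1 ∩ C'.G2).card := by
    rw [h1]; exact (Finset.card_union_le _ _)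
  have h3 : (C.G1 ∩ C'.G2).card ≤ g := by
    exact (Finset.card_le_card Finset.inter_subset_right).trans c2'.le
  obtain ⟨e, e', he, he', hf, hf', hne⟩ := exists_pair (S := C.G1) (T := C'.G1) (by omega)
  have k1 : C.K1 = C'.K1 := by rw [← C.inter_G1 he he' hne, C'.inter_G1 hf hf' hne]
  have k2' : C.K2 = C'.K2 := by
    rcases k2 with k2 | k2
    · exfalso
      have hh : C.K1 ∩ C.K2 = C.K1 := by rw [k1, k2, Finset.inter_self]
      rw [C.K_inter] at hh
      have := C.cK1; have := C.cI; rw [hh] at this; omega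
    · exact k2
  have hI : C.I = C'.I := by rw [← C.K_inter, ← C'.K_inter, k1, k2']
  exact ⟨hI, by rw [C.D1_eq, C'.D1_eq, k1, hI], by rw [C.D2_eq, C'.D2_eq, k2', hI]⟩

/-- common edge of same-frame cores gives a common leaf -/
lemma SF.common_leaf {C C' : Core q g} (h : SF C C') (hne : (C.E ∩ C'.E).Nonempty)
    (hg : 4 * q + 10 ≤ g) :
    ∃ a, a ∈ C.X ∧ a ∈ C'.X := by
  obtain ⟨e, he⟩ := hne
  rw [Finset.mem_inter, Core.mem_E, Core.mem_E] at he
  obtain ⟨h1, h2⟩ := he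
  rcases h1 with h1 | h1 <;> rcases h2 with h2 | h2
  · rw [Core.mem_G1] at h1 h2
    obtain ⟨a, ha, rfl⟩ := h1; obtain ⟨b, hb, hb'⟩ := h2
    rw [← h.K1] at hb'
    have := Core.insert_inj (C.a_notK1 ha) hb'.symm
    subst this
    exact ⟨a, C.mem_X.2 (Or.inl ha), C'.mem_X.2 (Or.inl hb)⟩
  · exfalso
    rw [Core.mem_G1] at h1; rw [Core.mem_G2] at h2
    obtain ⟨a, ha, rfl⟩ := h1; obtain ⟨b, hb, hb'⟩ := h2
    rw [← h.K2] at hb'
    have : C.D2 ⊆ {a} := by
      intro v hv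
      have hv' : v ∈ insert a C.K1 := hb' ▸ Finset.mem_insert_of_mem (C.mem_K2.2 (Or.inr hv))
      rcases Finset.mem_insert.1 hv' with h | h
      · simp [h]
      · rw [Core.mem_K1] at h
        rcases h with h | h
        · exact absurd hv (C.nI2 h)
        · exact absurd hv (C.n12 h)
    have := Finset.card_le_card this
    have := C.c2; simp at *; omega
  · exfalso
    rw [Core.mem_G2] at h1; rw [Core.mem_G1] at h2
    obtain ⟨a, ha, rfl⟩ := h1; obtain ⟨b, hb, hb'⟩ := h2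
    rw [← h.K1] at hb'
    have : C.D1 ⊆ {a} := by
      intro v hv
      have hv' : v ∈ insert a C.K2 := hb' ▸ Finset.mem_insert_of_mem (C.mem_K1.2 (Or.inr hv))
      rcases Finset.mem_insert.1 hv' with h | h
      · simp [h]
      · rw [Core.mem_K2] at h
        rcases h with h | h
        · exact absurd hv (C.nI1 h)
        · exact absurd hv (C.n21 h)
    have := Finset.card_le_card this
    have := C.c1; simp at *; omega
  · rw [Core.mem_G2] at h1 h2
    obtain ⟨a, ha, rfl⟩ := h1; obtain ⟨b, hb, hb'⟩ := h2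
    rw [← h.K2] at hb'
    have := Core.insert_inj (C.b_notK2 ha) hb'.symm
    subst this
    exact ⟨a, C.mem_X.2 (Or.inr ha), C'.mem_X.2 (Or.inr hb)⟩

/-- equality of star edges of same-frame cores -/
lemma SF.star_eq {C C' : Core q g} (h : SF C C') {y z y' z' : ℕ} (hy : y ∈ C.I) (hz : z ∉ C.V)
    (hy' : y' ∈ C'.I) (hz' : z' ∉ C'.V) (he : C.star y z = C'.star y' z') :
    C = C' ∧ y = y' ∧ z = z' := by
  have hV := h.V
  have hyz : y ∈ C'.star y' z' := he ▸ by simp [Core.star]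
  have hzz : z ∈ C'.star y' z' := he ▸ by simp [Core.star]
  have e1 : y = y' := by
    simp only [Core.star, Finset.mem_insert] at hyz
    rcases hyz with h1 | h1 | h1
    · exact absurd (h1 ▸ C.IV hy) (hV ▸ hz')
    · exact h1
    · exact absurd (h.1 ▸ hy) (C'.XI h1)
  have e2 : z = z' := by
    simp only [Core.star, Finset.mem_insert] at hzz
    rcases hzz with h1 | h1 | h1
    · exact h1
    · exact absurd (h1 ▸ (hV ▸ C'.IV hy')) hz
    · exact absurd (hV ▸ C'.XV h1) hz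
  subst e1 e2
  have hX : C.X = C'.X := by
    ext v
    constructor
    · intro hv
      have : v ∈ C'.star y z := he ▸ by simp [Core.star, hv]
      simp only [Core.star, Finset.mem_insert] at this
      rcases this with h1 | h1 | h1
      · exact absurd (h1 ▸ C.XV hv) hz
      · exact absurd (h1 ▸ hy) (C.XI hv)
      · exact h1
    · intro hv
      have : v ∈ C.star y z := he ▸ by simp [Core.star, hv]
      simp only [Core.star, Finset.mem_insert] at this
      rcases this with h1 | h1 | h1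
      · exact absurd (h1 ▸ C'.XV hv) hz'
      · exact absurd (h1 ▸ hy') (C'.XI hv)
      · exact h1
  exact ⟨h.eq_of_X hX, rfl, rfl⟩

/-- star edges of one core: injective in `y` -/
lemma Core.star_inj (C : Core q g) {y y' z : ℕ} (hy : y ∈ C.I) (hy' : y' ∈ C.I) (hz : z ∉ C.V)
    (h : C.star y z = C.star y' z) : y = y' :=
  (SF.star_eq (⟨rfl, rfl, rfl⟩ : SF C C) hy hz hy' hz h).2.1

/-- a copy of the hypergraph -/
def Copy (q g : ℕ) (S : Finset (Finset ℕ)) : Prop :=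
  ∃ C : Core q g, ∃ z, z ∉ C.V ∧ C.E ⊆ S ∧ q ≤ C.s S z

lemma Core.star_notE (C : Core q g) {y z : ℕ} (hz : z ∉ C.V) : C.star y z ∉ C.E := by
  intro h
  exact hz (C.E_sub_V h (by simp [Core.star]))

lemma Copy.card_le (hg : 4 * q + 10 ≤ g) {S : Finset (Finset ℕ)} (h : Copy q g S) :
    3 * g + q ≤ S.card := by
  obtain ⟨C, z, hz, hE, hs⟩ := h
  have h1 : ((C.I.filter (fun y => C.star y z ∈ S)).image (fun y => C.star y z)).card
      = C.s S z := by
    rw [Core.s, Finset.card_image_of_injOn]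
    intro y hy y' hy' h
    simp only [Finset.coe_filter, Set.mem_setOf_eq] at hy hy'
    exact C.star_inj hy.1 hy'.1 hz h
  have h2 : Disjoint C.E ((C.I.filter (fun y => C.star y z ∈ S)).image (fun y => C.star y z)) := by
    rw [Finset.disjoint_left]; intro e he he'
    simp only [Finset.mem_image] at he'
    obtain ⟨y, _, rfl⟩ := he'
    exact C.star_notE hz he
  have h3 : C.E ∪ ((C.I.filter (fun y => C.star y z ∈ S)).image (fun y => C.star y z)) ⊆ S := by
    apply Finset.union_subset hE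
    intro e he; simp only [Finset.mem_image, Finset.mem_filter] at he
    obtain ⟨y, ⟨_, hy⟩, rfl⟩ := he; exact hy
  have := Finset.card_le_card h3
  rw [Finset.card_union_of_disjoint h2, h1, C.cE hg] at this
  omega

lemma Core.s_mono (C : Core q g) {S T : Finset (Finset ℕ)} (h : S ⊆ T) (z : ℕ) :
    C.s S z ≤ C.s T z := by
  apply Finset.card_le_card
  intro y hy; simp only [Finset.mem_filter] at hy ⊢
  exact ⟨hy.1, h hy.2⟩

lemma Copy.mono {S T : Finset (Finset ℕ)} (hST : S ⊆ T) (h : Copy q g S) : Copy q g T := by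
  obtain ⟨C, z, hz, hE, hs⟩ := h
  exact ⟨C, z, hz, hE.trans hST, hs.trans (C.s_mono hST z)⟩

lemma Core.s_disj (C : Core q g) {S T : Finset (Finset ℕ)} (h : Disjoint S T) (z : ℕ) :
    C.s S z + C.s T z + 2 ≤ 2 * q := by
  have : Disjoint (C.I.filter (fun y => C.star y z ∈ S)) (C.I.filter (fun y => C.star y z ∈ T)) := by
    rw [Finset.disjoint_left]; intro y h1 h2
    simp only [Finset.mem_filter] at h1 h2
    exact Finset.disjoint_left.1 h h1.2 h2.2
  have h2 := Finset.card_union_of_disjoint this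
  have h3 : (C.I.filter (fun y => C.star y z ∈ S)) ∪ (C.I.filter (fun y => C.star y z ∈ T)) ⊆ C.I := by
    apply Finset.union_subset <;> exact Finset.filter_subset _ _
  have h4 := Finset.card_le_card h3
  have := C.cI
  simp only [Core.s]; omega

/-- unclaimed star edge -/
lemma Core.exists_free (C : Core q g) {S T : Finset (Finset ℕ)} {z : ℕ}
    (h : C.s S z + C.s T z + 2 < 2 * q) : ∃ y ∈ C.I, C.star y z ∉ S ∧ C.star y z ∉ T := by
  by_contra hc
  push Not at hc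
  have : C.I ⊆ (C.I.filter (fun y => C.star y z ∈ S)) ∪ (C.I.filter (fun y => C.star y z ∈ T)) := by
    intro y hy; simp only [Finset.mem_union, Finset.mem_filter]
    by_cases h1 : C.star y z ∈ S
    · exact Or.inl ⟨hy, h1⟩
    · exact Or.inr ⟨hy, hc y hy h1⟩
  have h2 := (Finset.card_le_card this).trans (Finset.card_union_le _ _)
  have := C.cI
  simp only [Core.s] at h; omega

lemma Core.s_insert_le (C : Core q g) (S : Finset (Finset ℕ)) (f : Finset ℕ) {z : ℕ}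
    (hz : z ∉ C.V) : C.s (insert f S) z ≤ C.s S z + 1 := by
  classical
  by_cases hf : ∃ y ∈ C.I, C.star y z = f
  · obtain ⟨y0, hy0, rfl⟩ := hf
    have : C.I.filter (fun y => C.star y z ∈ insert (C.star y0 z) S) ⊆
        insert y0 (C.I.filter (fun y => C.star y z ∈ S)) := by
      intro y hy; simp only [Finset.mem_filter, Finset.mem_insert] at hy ⊢
      rcases hy.2 with h | h
      · left; exact C.star_inj hy.1 hy0 hz h
      · right; exact ⟨hy.1, h⟩
    exact (Finset.card_le_card this).trans (Finset.card_insert_le _ _)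
  · have : C.I.filter (fun y => C.star y z ∈ insert f S) ⊆
        (C.I.filter (fun y => C.star y z ∈ S)) := by
      intro y hy; simp only [Finset.mem_filter, Finset.mem_insert] at hy ⊢
      rcases hy.2 with h | h
      · exact absurd ⟨y, hy.1, h⟩ hf
      · exact ⟨hy.1, h⟩
    exact (Finset.card_le_card this).trans (Nat.le_succ _)

lemma Core.s_insert_not (C : Core q g) (S : Finset (Finset ℕ)) (f : Finset ℕ) {z : ℕ}
    (hf : ∀ y ∈ C.I, C.star y z ≠ f) : C.s (insert f S) z = C.s S z := by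
  unfold Core.s
  congr 1
  ext y; simp only [Finset.mem_filter, Finset.mem_insert]
  constructor
  · rintro ⟨h1, h2 | h2⟩
    · exact absurd h2 (hf y h1)
    · exact ⟨h1, h2⟩
  · rintro ⟨h1, h2⟩; exact ⟨h1, Or.inr h2⟩

lemma Core.s_insert_mem (C : Core q g) (S : Finset (Finset ℕ)) {y z : ℕ} (hy : y ∈ C.I)
    (hz : z ∉ C.V) (hn : C.star y z ∉ S) : C.s (insert (C.star y z) S) z = C.s S z + 1 := by
  classical
  have : C.I.filter (fun y' => C.star y' z ∈ insert (C.star y z) S) =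
        insert y (C.I.filter (fun y => C.star y z ∈ S)) := by
    ext y'; simp only [Finset.mem_filter, Finset.mem_insert]
    constructor
    · rintro ⟨h1, h2 | h2⟩
      · left; exact C.star_inj h1 hy hz h2
      · right; exact ⟨h1, h2⟩
    · rintro (h | ⟨h1, h2⟩)
      · subst h; exact ⟨hy, Or.inl rfl⟩
      · exact ⟨h1, Or.inr h2⟩
  unfold Core.s
  rw [this, Finset.card_insert_of_notMem]
  simp [hn]

lemma Core.s_zero (C : Core q g) {S : Finset (Finset ℕ)} {z : ℕ} (h : ∀ e ∈ S, z ∉ e) :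
    C.s S z = 0 := by
  unfold Core.s
  rw [Finset.card_eq_zero, Finset.filter_eq_empty_iff]
  intro y _ hy
  exact h _ hy (by simp [Core.star])

end Pool.Agent.H460SR
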