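import Mathlib

set_option autoImplicit false

namespace Pool.Agent.H460SR

open Finset

section game

variable (k : ℕ) (HasH : Finset (Finset ℕ) → Prop) (Inv : Finset (Finset ℕ) → Finset (Finset ℕ) → Prop)

/-- attacker's edges among the first `n` moves -/
def aset (a n : ℕ) (m : ℕ → Finset ℕ) : Finset (Finset ℕ) :=
  ((Finset.range n).filter (fun i => i % 2 = a)).image m
/-- defender's edges among the first `n` moves -/
def dset (a n : ℕ) (m : ℕ → Finset ℕ) : Finset (Finset ℕ) :=
  ((Finset.range n).filter (fun i => i % 2 ≠ a)).image m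

lemma aset_congr {a n : ℕ} {m m' : ℕ → Finset ℕ} (h : ∀ i < n, m i = m' i) :
    aset a n m = aset a n m' := by
  unfold aset
  apply Finset.image_congr
  intro i hi
  simp only [Finset.coe_filter, Finset.mem_range, Set.mem_setOf_eq] at hi
  exact h i hi.1
lemma dset_congr {a n : ℕ} {m m' : ℕ → Finset ℕ} (h : ∀ i < n, m i = m' i) :
    dset a n m = dset a n m' := by
  unfold dset
  apply Finset.image_congr
  intro i hi
  simp only [Finset.coe_filter, Finset.mem_range, Set.mem_setOf_eq] at hi
  exact h i hi.1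

lemma aset_succ_same {a n : ℕ} (m : ℕ → Finset ℕ) (h : n % 2 = a) :
    aset a (n + 1) m = insert (m n) (aset a n m) := by
  unfold aset
  rw [Finset.range_add_one, Finset.filter_insert, if_pos h, Finset.image_insert]
lemma aset_succ_diff {a n : ℕ} (m : ℕ → Finset ℕ) (h : n % 2 ≠ a) :
    aset a (n + 1) m = aset a n m := by
  unfold aset
  rw [Finset.range_add_one, Finset.filter_insert, if_neg h]
lemma dset_succ_same {a n : ℕ} (m : ℕ → Finset ℕ) (h : n % 2 = a) :
    dset a (n + 1) m = dset a n m := by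
  unfold dset
  rw [Finset.range_add_one, Finset.filter_insert, if_neg (by simpa using h)]
lemma dset_succ_diff {a n : ℕ} (m : ℕ → Finset ℕ) (h : n % 2 ≠ a) :
    dset a (n + 1) m = insert (m n) (dset a n m) := by
  unfold dset
  rw [Finset.range_add_one, Finset.filter_insert, if_pos h, Finset.image_insert]

open Classical in
/-- the defender's reply -/
noncomputable def reply (hk : ∀ T : Finset (Finset ℕ), ∃ e : Finset ℕ, e.card = k ∧ e ∉ T)
    (A D : Finset (Finset ℕ)) : Finset ℕ :=
  if h : ∃ e : Finset ℕ, e.card = k ∧ e ∉ A ∧ e ∉ D ∧ Inv A (insert e D) then h.choose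
  else (hk (A ∪ D)).choose

lemma reply_legal (hk : ∀ T : Finset (Finset ℕ), ∃ e : Finset ℕ, e.card = k ∧ e ∉ T)
    (A D : Finset (Finset ℕ)) :
    (reply k Inv hk A D).card = k ∧ reply k Inv hk A D ∉ A ∧ reply k Inv hk A D ∉ D := by
  unfold reply
  split_ifs with h
  · exact ⟨h.choose_spec.1, h.choose_spec.2.1, h.choose_spec.2.2.1⟩
  · have := (hk (A ∪ D)).choose_spec
    rw [Finset.mem_union, not_or] at this
    exact ⟨this.1, this.2.1, this.2.2⟩

lemma reply_inv (hk : ∀ T : Finset (Finset ℕ), ∃ e : Finset ℕ, e.card = k ∧ e ∉ T)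
    (A D : Finset (Finset ℕ))
    (h : ∃ e : Finset ℕ, e.card = k ∧ e ∉ A ∧ e ∉ D ∧ Inv A (insert e D)) :
    Inv A (insert (reply k Inv hk A D) D) := by
  unfold reply
  rw [dif_pos h]
  exact h.choose_spec.2.2.2

variable (s : List (Finset ℕ) → Finset ℕ) (a : ℕ)

/-- next move -/
noncomputable def nxt (hk : ∀ T : Finset (Finset ℕ), ∃ e : Finset ℕ, e.card = k ∧ e ∉ T)
    (i : ℕ) (L : List (Finset ℕ)) : Finset ℕ :=
  if i % 2 = a then s L
  else reply k Inv hk (aset a i (fun j => L.getD j ∅)) (dset a i (fun j => L.getD j ∅))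

noncomputable def hist (hk : ∀ T : Finset (Finset ℕ), ∃ e : Finset ℕ, e.card = k ∧ e ∉ T) :
    ℕ → List (Finset ℕ)
  | 0 => []
  | (i + 1) => hist hk i ++ [nxt k Inv s a hk i (hist hk i)]

noncomputable def play (hk : ∀ T : Finset (Finset ℕ), ∃ e : Finset ℕ, e.card = k ∧ e ∉ T)
    (i : ℕ) : Finset ℕ := nxt k Inv s a hk i (hist k Inv s a hk i)

lemma hist_eq (hk : ∀ T : Finset (Finset ℕ), ∃ e : Finset ℕ, e.card = k ∧ e ∉ T) (i : ℕ) :
    hist k Inv s a hk i = List.ofFn (fun j : Fin i => play k Inv s a hk j) := by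
  induction i with
  | zero => simp [hist]
  | succ i ih =>
    rw [List.ofFn_succ']
    rw [hist, List.concat_eq_append]
    congr 1

lemma hist_getD (hk : ∀ T : Finset (Finset ℕ), ∃ e : Finset ℕ, e.card = k ∧ e ∉ T) {i j : ℕ}
    (hj : j < i) : (hist k Inv s a hk i).getD j ∅ = play k Inv s a hk j := by
  rw [hist_eq, List.getD_eq_getElem?_getD, List.getElem?_ofFn, dif_pos hj]
  rfl

theorem game (hk : ∀ T : Finset (Finset ℕ), ∃ e : Finset ℕ, e.card = k ∧ e ∉ T)
    (ha : a = 0 ∨ a = 1)
    (h0 : ∀ D, Inv ∅ D)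
    (step : ∀ A D f, Inv A D → f.card = k → f ∉ A → f ∉ D →
      ∃ e : Finset ℕ, e.card = k ∧ e ∉ insert f A ∧ e ∉ D ∧ Inv (insert f A) (insert e D))
    (safe : ∀ A D f, Inv A D → f.card = k → f ∉ A → f ∉ D → HasH (insert f A) → HasH D) :
    ∃ m : ℕ → Finset ℕ, (∀ i, i % 2 = a → m i = s (List.ofFn (fun j : Fin i => m j))) ∧
      (∀ i, i % 2 ≠ a → (m i).card = k ∧ ∀ j < i, m j ≠ m i) ∧
      ∀ N, N % 2 = a → (∀ i ≤ N, i % 2 = a → (m i).card = k ∧ ∀ j < i, m j ≠ m i) →
        HasH (aset a (N + 1) m) → HasH (dset a N m) := by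
  set m := play k Inv s a hk with hm
  have hAset : ∀ i, aset a i (fun j => (hist k Inv s a hk i).getD j ∅) = aset a i m := fun i =>
    aset_congr (fun j hj => hist_getD k Inv s a hk hj)
  have hDset : ∀ i, dset a i (fun j => (hist k Inv s a hk i).getD j ∅) = dset a i m := fun i =>
    dset_congr (fun j hj => hist_getD k Inv s a hk hj)
  have hatt : ∀ i, i % 2 = a → m i = s (List.ofFn (fun j : Fin i => m j)) := by
    intro i hi
    have : m i = nxt k Inv s a hk i (hist k Inv s a hk i) := rfl
    rw [this, nxt, if_pos hi, hist_eq]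
  have hdef : ∀ i, i % 2 ≠ a → m i = reply k Inv hk (aset a i m) (dset a i m) := by
    intro i hi
    have : m i = nxt k Inv s a hk i (hist k Inv s a hk i) := rfl
    rw [this, nxt, if_neg hi, hAset, hDset]
  have hmem : ∀ i (x : Finset ℕ), x ∉ aset a i m → x ∉ dset a i m → ∀ j < i, m j ≠ x := by
    intro i x h1 h2 j hj hx
    by_cases hja : j % 2 = a
    · apply h1; unfold aset; rw [Finset.mem_image]
      exact ⟨j, by simp [hj, hja], hx⟩
    · apply h2; unfold dset; rw [Finset.mem_image]
      exact ⟨j, by simp [hj, hja], hx⟩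
  have hmem' : ∀ i (x : Finset ℕ), (∀ j < i, m j ≠ x) → x ∉ aset a i m ∧ x ∉ dset a i m := by
    intro i x h
    constructor
    · intro h1; unfold aset at h1; rw [Finset.mem_image] at h1
      obtain ⟨j, hj, hx⟩ := h1
      simp only [Finset.mem_filter, Finset.mem_range] at hj
      exact h j hj.1 hx
    · intro h1; unfold dset at h1; rw [Finset.mem_image] at h1
      obtain ⟨j, hj, hx⟩ := h1
      simp only [Finset.mem_filter, Finset.mem_range] at hj
      exact h j hj.1 hx
  have hinv : ∀ t, (∀ i < a + 2 * t, i % 2 = a → (m i).card = k ∧ ∀ j < i, m j ≠ m i) →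
      Inv (aset a (a + 2 * t) m) (dset a (a + 2 * t) m) := by
    intro t
    induction t with
    | zero =>
      intro _
      have : aset a (a + 2 * 0) m = ∅ := by
        unfold aset
        rw [Finset.image_eq_empty, Finset.filter_eq_empty_iff]
        intro i hi
        rw [Finset.mem_range] at hi
        rcases ha with rfl | rfl <;> omega
      rw [this]; exact h0 _
    | succ t ih =>
      intro h
      set n := a + 2 * t with hn
      have hn2 : a + 2 * (t + 1) = n + 1 + 1 := by omega
      have hna : n % 2 = a := by rcases ha with rfl | rfl <;> omega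
      have hna' : (n + 1) % 2 ≠ a := by rcases ha with rfl | rfl <;> omega
      have hI := ih (fun i hi => h i (by omega))
      have hf := h n (by omega) hna
      obtain ⟨hf1, hf2⟩ := hmem' n (m n) hf.2
      have hex := step _ _ (m n) hI hf.1 hf1 hf2
      rw [hn2, aset_succ_diff m hna', dset_succ_diff m hna', aset_succ_same m hna,
        dset_succ_same m hna, hdef (n + 1) hna', aset_succ_same m hna, dset_succ_same m hna]
      exact reply_inv k Inv hk _ _ hex
  refine ⟨m, hatt, ?_, ?_⟩
  · intro i hi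
    have h1 := reply_legal k Inv hk (aset a i m) (dset a i m)
    rw [← hdef i hi] at h1
    exact ⟨h1.1, hmem i (m i) h1.2.1 h1.2.2⟩
  · intro N hN hleg hH
    obtain ⟨t, ht⟩ : ∃ t, N = a + 2 * t := ⟨(N - a) / 2, by rcases ha with rfl | rfl <;> omega⟩
    have hI := hinv t (fun i hi => hleg i (by omega))
    rw [← ht] at hI
    have hf := hleg N (le_refl _) hN
    obtain ⟨hf1, hf2⟩ := hmem' N (m N) hf.2
    rw [aset_succ_same m hN] at hH
    exact safe _ _ (m N) hI hf.1 hf1 hf2 hH

end game

end Pool.Agent.H460SR
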