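import Pool.Agent.H460SR.Hyper
import Pool.Agent.H460SR.Game

set_option autoImplicit false

namespace Pool.Agent.H460SR

open Finset

/-- the hypergraph on `Fin n` -/
noncomputable def HF (q g : ℕ) : Finset (Finset (Fin (Fintype.card (VT q g)))) :=
  (HV q g).image (fun s => s.image (Fintype.equivFin (VT q g)))

variable {q g : ℕ}

lemma HF_card (hq : 3 ≤ q) (hg : 4 * q + 10 ≤ g) : ∀ e ∈ HF q g, e.card = 3 * g + 2 := by
  intro e he
  rw [HF, Finset.mem_image] at he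
  obtain ⟨s, hs, rfl⟩ := he
  rw [Finset.card_image_of_injective _ (Fintype.equivFin (VT q g)).injective]
  exact im_card hq hg hs

lemma HF_deg (hq : 3 ≤ q) (hg : 4 * q + 10 ≤ g) (v : Fin (Fintype.card (VT q g))) :
    q ≤ ((HF q g).filter (fun e => v ∈ e)).card := by
  classical
  have h1 := deg_HV hq hg ((Fintype.equivFin (VT q g)).symm v)
  refine h1.trans ?_
  rw [← Finset.card_image_of_injective _
    (Finset.image_injective (Fintype.equivFin (VT q g)).injective)]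
  apply Finset.card_le_card
  intro e he
  rw [Finset.mem_image] at he
  obtain ⟨s, hs, rfl⟩ := he
  rw [Finset.mem_filter] at hs ⊢
  refine ⟨Finset.mem_image.2 ⟨s, hs.1, rfl⟩, ?_⟩
  rw [Finset.mem_image]
  exact ⟨_, hs.2, by simp⟩

lemma copy_iff (hq : 3 ≤ q) (hg : 4 * q + 10 ≤ g) (S : Finset (Finset ℕ)) :
    (∃ f : Fin (Fintype.card (VT q g)) → ℕ, Function.Injective f ∧
      ∀ e ∈ HF q g, e.image f ∈ S) ↔ Copy q g S := by
  constructor
  · rintro ⟨f, hf, h⟩
    apply copy_of_inj hq hg (f ∘ (Fintype.equivFin (VT q g)))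
      (hf.comp (Fintype.equivFin (VT q g)).injective)
    intro s hs
    rw [← Finset.image_image]
    exact h _ (Finset.mem_image.2 ⟨s, hs, rfl⟩)
  · intro h
    obtain ⟨φ, hφ, h⟩ := inj_of_copy hq hg h
    refine ⟨φ ∘ (Fintype.equivFin (VT q g)).symm,
      hφ.comp (Fintype.equivFin (VT q g)).symm.injective, ?_⟩
    intro e he
    rw [HF, Finset.mem_image] at he
    obtain ⟨s, hs, rfl⟩ := he
    rw [Finset.image_image]
    have : ((φ ∘ (Fintype.equivFin (VT q g)).symm) ∘ (Fintype.equivFin (VT q g))) = φ := by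
      funext x; simp
    rw [this]; exact h s hs

lemma Inv_empty (D : Finset (Finset ℕ)) : Inv q g ∅ D := ⟨Finset.disjoint_empty_left _, Or.inr (Or.inl rfl)⟩

lemma hk (g : ℕ) (T : Finset (Finset ℕ)) : ∃ e : Finset ℕ, e.card = 3 * g + 2 ∧ e ∉ T := by
  obtain ⟨e, h1, h2, _⟩ := step_any T ∅ g
  exact ⟨e, h1, h2⟩

theorem game' (hq : 3 ≤ q) (hg : 4 * q + 10 ≤ g) (s : List (Finset ℕ) → Finset ℕ) (a : ℕ)
    (ha : a = 0 ∨ a = 1) :
    ∃ m : ℕ → Finset ℕ, (∀ i, i % 2 = a → m i = s (List.ofFn (fun j : Fin i => m j))) ∧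
      (∀ i, i % 2 ≠ a → (m i).card = 3 * g + 2 ∧ ∀ j < i, m j ≠ m i) ∧
      ∀ N, N % 2 = a → (∀ i ≤ N, i % 2 = a → (m i).card = 3 * g + 2 ∧ ∀ j < i, m j ≠ m i) →
        Copy q g (aset a (N + 1) m) → Copy q g (dset a N m) :=
  game (3 * g + 2) (Copy q g) (Inv q g) s a (hk g) ha Inv_empty
    (fun _ _ _ h _ h1 h2 => h.step hg hq h1 h2)
    (fun _ _ _ h _ _ h2 h3 => h.safe hg hq h2 h3)

end Pool.Agent.H460SR
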