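import Pool.Agent.H460SR.Build

set_option autoImplicit false

namespace Pool.Agent.H460SR

open Finset

abbrev TI (q : ℕ) := Fin q ⊕ Fin (q - 2)
abbrev T1 (q g : ℕ) := Fin g ⊕ Fin (2 * g + 3 - 2 * q)
abbrev T2 (q g : ℕ) := Fin (2 * g) ⊕ Fin (g + 3 - 2 * q)
abbrev VT (q g : ℕ) := TI q ⊕ (T1 q g ⊕ (T2 q g ⊕ Unit))

variable {q g : ℕ}

def jI (x : TI q) : VT q g := Sum.inl x
def j1 (x : T1 q g) : VT q g := Sum.inr (Sum.inl x)
def j2 (x : T2 q g) : VT q g := Sum.inr (Sum.inr (Sum.inl x))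
def jz : VT q g := Sum.inr (Sum.inr (Sum.inr ()))

lemma jI_inj : Function.Injective (jI : TI q → VT q g) := Sum.inl_injective
lemma j1_inj : Function.Injective (j1 : T1 q g → VT q g) :=
  Sum.inr_injective.comp Sum.inl_injective
lemma j2_inj : Function.Injective (j2 : T2 q g → VT q g) :=
  Sum.inr_injective.comp (Sum.inr_injective.comp Sum.inl_injective)

def kI : Finset (VT q g) := (Finset.univ : Finset (TI q)).image jI
def kD1 : Finset (VT q g) := (Finset.univ : Finset (T1 q g)).image j1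
def kD2 : Finset (VT q g) := (Finset.univ : Finset (T2 q g)).image j2
def kX1 : Finset (VT q g) := (Finset.univ : Finset (Fin (2 * g))).image (fun a => j2 (Sum.inl a))
def kX2 : Finset (VT q g) := (Finset.univ : Finset (Fin g)).image (fun a => j1 (Sum.inl a))

def F1 (a : Fin (2 * g)) : Finset (VT q g) := insert (j2 (Sum.inl a)) (kI ∪ kD1)
def F2 (a : Fin g) : Finset (VT q g) := insert (j1 (Sum.inl a)) (kI ∪ kD2)
def F3 (y : Fin q) : Finset (VT q g) := insert jz (insert (jI (Sum.inl y)) (kX1 ∪ kX2))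

def HV (q g : ℕ) : Finset (Finset (VT q g)) :=
  (Finset.univ.image F1 ∪ Finset.univ.image F2) ∪ Finset.univ.image F3

lemma mem_HV {s : Finset (VT q g)} :
    s ∈ HV q g ↔ (∃ a, F1 a = s) ∨ (∃ a, F2 a = s) ∨ (∃ a, F3 a = s) := by
  simp [HV]

lemma disj_image {α β : Type*} [DecidableEq β] [Fintype α] {γ : Type*} [Fintype γ] {f : α → β}
    {f' : γ → β} (h : ∀ x y, f x ≠ f' y) :
    Disjoint ((Finset.univ : Finset α).image f) ((Finset.univ : Finset γ).image f') := by
  rw [Finset.disjoint_left]; intro b hb hb'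
  rw [Finset.mem_image] at hb hb'
  obtain ⟨x, _, rfl⟩ := hb; obtain ⟨y, _, hy⟩ := hb'
  exact h x y hy.symm

lemma card_im {α : Type*} [Fintype α] {f : α → ℕ} (hf : Function.Injective f) :
    ((Finset.univ : Finset α).image f).card = Fintype.card α := by
  rw [Finset.card_image_of_injective _ hf]; rfl

/-- the core given by an injection -/
def coreOf (hq : 3 ≤ q) (hg : 4 * q + 10 ≤ g) (φ : VT q g → ℕ) (hφ : Function.Injective φ) :
    Core q g where
  I := (Finset.univ : Finset (TI q)).image (fun x => φ (jI x))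
  D1 := (Finset.univ : Finset (T1 q g)).image (fun x => φ (j1 x))
  D2 := (Finset.univ : Finset (T2 q g)).image (fun x => φ (j2 x))
  X1 := (Finset.univ : Finset (Fin (2 * g))).image (fun a => φ (j2 (Sum.inl a)))
  X2 := (Finset.univ : Finset (Fin g)).image (fun a => φ (j1 (Sum.inl a)))
  dI1 := disj_image (fun x y h => by have := hφ h; simp [jI, j1] at this)
  dI2 := disj_image (fun x y h => by have := hφ h; simp [jI, j2] at this)
  d12 := disj_image (fun x y h => by have := hφ h; simp [j1, j2] at this)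
  cI := by
    have h := card_im (hφ.comp (jI_inj (q := q) (g := g)))
    simp only [Function.comp_def] at h; rw [h]; simp; omega
  c1 := by
    have h := card_im (hφ.comp (j1_inj (q := q) (g := g)))
    simp only [Function.comp_def] at h; rw [h]; simp; omega
  c2 := by
    have h := card_im (hφ.comp (j2_inj (q := q) (g := g)))
    simp only [Function.comp_def] at h; rw [h]; simp; omega
  x1 := by
    intro x hx; rw [Finset.mem_image] at hx ⊢
    obtain ⟨a, _, rfl⟩ := hx; exact ⟨Sum.inl a, Finset.mem_univ _, rfl⟩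
  x2 := by
    intro x hx; rw [Finset.mem_image] at hx ⊢
    obtain ⟨a, _, rfl⟩ := hx; exact ⟨Sum.inl a, Finset.mem_univ _, rfl⟩
  cX1 := by
    have h := card_im (hφ.comp ((j2_inj (q := q) (g := g)).comp Sum.inl_injective))
    simp only [Function.comp_def] at h; rw [h]; simp
  cX2 := by
    have h := card_im (hφ.comp ((j1_inj (q := q) (g := g)).comp Sum.inl_injective))
    simp only [Function.comp_def] at h; rw [h]; simp

section
variable (hq : 3 ≤ q) (hg : 4 * q + 10 ≤ g) (φ : VT q g → ℕ) (hφ : Function.Injective φ)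

lemma im_kI : (kI : Finset (VT q g)).image φ = (coreOf hq hg φ hφ).I := by
  simp [kI, coreOf, Finset.image_image, Function.comp_def]
lemma im_kD1 : (kD1 : Finset (VT q g)).image φ = (coreOf hq hg φ hφ).D1 := by
  simp [kD1, coreOf, Finset.image_image, Function.comp_def]
lemma im_kD2 : (kD2 : Finset (VT q g)).image φ = (coreOf hq hg φ hφ).D2 := by
  simp [kD2, coreOf, Finset.image_image, Function.comp_def]
lemma im_kX1 : (kX1 : Finset (VT q g)).image φ = (coreOf hq hg φ hφ).X1 := by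
  simp [kX1, coreOf, Finset.image_image, Function.comp_def]
lemma im_kX2 : (kX2 : Finset (VT q g)).image φ = (coreOf hq hg φ hφ).X2 := by
  simp [kX2, coreOf, Finset.image_image, Function.comp_def]

lemma im_F1 (a : Fin (2 * g)) : (F1 a : Finset (VT q g)).image φ =
    insert (φ (j2 (Sum.inl a))) (coreOf hq hg φ hφ).K1 := by
  rw [F1, Finset.image_insert, Finset.image_union, im_kI hq hg φ hφ, im_kD1 hq hg φ hφ]; rfl
lemma im_F2 (a : Fin g) : (F2 a : Finset (VT q g)).image φ =
    insert (φ (j1 (Sum.inl a))) (coreOf hq hg φ hφ).K2 := by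
  rw [F2, Finset.image_insert, Finset.image_union, im_kI hq hg φ hφ, im_kD2 hq hg φ hφ]; rfl
lemma im_F3 (y : Fin q) : (F3 y : Finset (VT q g)).image φ =
    (coreOf hq hg φ hφ).star (φ (jI (Sum.inl y))) (φ jz) := by
  rw [F3, Finset.image_insert, Finset.image_insert, Finset.image_union, im_kX1 hq hg φ hφ,
    im_kX2 hq hg φ hφ]; rfl

lemma jz_notV : φ jz ∉ (coreOf hq hg φ hφ).V := by
  rw [Core.mem_V]
  simp only [coreOf, Finset.mem_image, Finset.mem_univ, true_and, not_or, not_exists]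
  refine ⟨fun x h => ?_, fun x h => ?_, fun x h => ?_⟩ <;>
  · have := hφ h; simp [jI, j1, j2, jz] at this

omit φ hφ in
include hq hg in
lemma im_card {s : Finset (VT q g)} (hs : s ∈ HV q g) : s.card = 3 * g + 2 := by
  obtain ⟨φ, hφ⟩ : ∃ φ : VT q g → ℕ, Function.Injective φ :=
    ⟨fun v => (Fintype.equivFin (VT q g) v : ℕ), fun a b h => by
      have := Fin.ext h; exact (Fintype.equivFin (VT q g)).injective this⟩
  rw [← Finset.card_image_of_injective s hφ]
  rcases mem_HV.1 hs with ⟨a, rfl⟩ | ⟨a, rfl⟩ | ⟨a, rfl⟩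
  · rw [im_F1 hq hg φ hφ]
    apply Core.E_card; apply Core.G1E; rw [Core.mem_G1]
    exact ⟨_, by simp [coreOf], rfl⟩
  · rw [im_F2 hq hg φ hφ]
    apply Core.E_card; apply Core.G2E; rw [Core.mem_G2]
    exact ⟨_, by simp [coreOf], rfl⟩
  · rw [im_F3 hq hg φ hφ]
    apply Core.cstar _ _ (jz_notV hq hg φ hφ)
    simp [coreOf]

include hq hg hφ in
lemma copy_of_inj {S : Finset (Finset ℕ)} (h : ∀ s ∈ HV q g, s.image φ ∈ S) : Copy q g S := by
  refine ⟨coreOf hq hg φ hφ, φ jz, jz_notV hq hg φ hφ, ?_, ?_⟩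
  · intro e he
    rcases (coreOf hq hg φ hφ).mem_E.1 he with he | he
    · obtain ⟨a, ha, rfl⟩ := (coreOf hq hg φ hφ).mem_G1.1 he
      simp only [coreOf, Finset.mem_image, Finset.mem_univ, true_and] at ha
      obtain ⟨i, rfl⟩ := ha
      have := h (F1 i) (mem_HV.2 (Or.inl ⟨i, rfl⟩))
      rw [im_F1 hq hg φ hφ] at this; exact this
    · obtain ⟨a, ha, rfl⟩ := (coreOf hq hg φ hφ).mem_G2.1 he
      simp only [coreOf, Finset.mem_image, Finset.mem_univ, true_and] at ha
      obtain ⟨i, rfl⟩ := ha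
      have := h (F2 i) (mem_HV.2 (Or.inr (Or.inl ⟨i, rfl⟩)))
      rw [im_F2 hq hg φ hφ] at this; exact this
  · have h1 : (Finset.univ : Finset (Fin q)).image (fun y => φ (jI (Sum.inl y))) ⊆
        (coreOf hq hg φ hφ).I.filter (fun y => (coreOf hq hg φ hφ).star y (φ jz) ∈ S) := by
      intro x hx
      rw [Finset.mem_image] at hx
      obtain ⟨y, _, rfl⟩ := hx
      rw [Finset.mem_filter]
      refine ⟨by simp [coreOf], ?_⟩
      have := h (F3 y) (mem_HV.2 (Or.inr (Or.inr ⟨y, rfl⟩)))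
      rw [im_F3 hq hg φ hφ] at this; exact this
    have h2 := Finset.card_le_card h1
    have h3 := card_im (hφ.comp ((jI_inj (q := q) (g := g)).comp Sum.inl_injective))
    simp only [Function.comp_def] at h3
    rw [h3] at h2
    simpa [Core.s] using h2

end

/-- an injective enumeration of a finset -/
lemma enum {T : Finset ℕ} {n : ℕ} (h : T.card = n) :
    ∃ f : Fin n → ℕ, Function.Injective f ∧ (Finset.univ : Finset (Fin n)).image f = T ∧
      ∀ i, f i ∈ T := by
  subst h
  refine ⟨fun i => (T.equivFin.symm i : ℕ), ?_, ?_, ?_⟩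
  · intro a b hab; exact T.equivFin.symm.injective (Subtype.ext hab)
  · ext x; simp only [Finset.mem_image, Finset.mem_univ, true_and]
    constructor
    · rintro ⟨i, rfl⟩; exact (T.equivFin.symm i).2
    · intro hx; exact ⟨T.equivFin ⟨x, hx⟩, by simp⟩
  · intro i; exact (T.equivFin.symm i).2

lemma inj_of_copy (hq : 3 ≤ q) (hg : 4 * q + 10 ≤ g) {S : Finset (Finset ℕ)} (h : Copy q g S) :
    ∃ φ : VT q g → ℕ, Function.Injective φ ∧ ∀ s ∈ HV q g, s.image φ ∈ S := by
  classical
  obtain ⟨C, z, hz, hE, hs⟩ := h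
  obtain ⟨Y, hYs, hYc⟩ := Finset.exists_subset_card_eq hs
  have hYI : Y ⊆ C.I := fun y hy => (Finset.mem_filter.1 (hYs hy)).1
  have hYS : ∀ y ∈ Y, C.star y z ∈ S := fun y hy => (Finset.mem_filter.1 (hYs hy)).2
  have cI := C.cI; have c1 := C.c1; have c2 := C.c2; have cX1 := C.cX1; have cX2 := C.cX2
  obtain ⟨fY, iY, rY, mY⟩ := enum hYc
  obtain ⟨fI, iI, rI, mI⟩ := enum (T := C.I \ Y) (n := q - 2) (by
    rw [Finset.card_sdiff_of_subset hYI]; omega)
  obtain ⟨fX2, iX2, rX2, mX2⟩ := enum C.cX2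
  obtain ⟨fD1, iD1, rD1, mD1⟩ := enum (T := C.D1 \ C.X2) (n := 2 * g + 3 - 2 * q) (by
    rw [Finset.card_sdiff_of_subset C.x2]; omega)
  obtain ⟨fX1, iX1, rX1, mX1⟩ := enum C.cX1
  obtain ⟨fD2, iD2, rD2, mD2⟩ := enum (T := C.D2 \ C.X1) (n := g + 3 - 2 * q) (by
    rw [Finset.card_sdiff_of_subset C.x1]; omega)
  let pI : TI q → ℕ := Sum.elim fY fI
  let p1 : T1 q g → ℕ := Sum.elim fX2 fD1
  let p2 : T2 q g → ℕ := Sum.elim fX1 fD2
  have mpI : ∀ x, pI x ∈ C.I := by
    rintro (x | x)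
    · exact hYI (mY x)
    · exact (Finset.mem_sdiff.1 (mI x)).1
  have mp1 : ∀ x, p1 x ∈ C.D1 := by
    rintro (x | x)
    · exact C.x2 (mX2 x)
    · exact (Finset.mem_sdiff.1 (mD1 x)).1
  have mp2 : ∀ x, p2 x ∈ C.D2 := by
    rintro (x | x)
    · exact C.x1 (mX1 x)
    · exact (Finset.mem_sdiff.1 (mD2 x)).1
  have ipI : Function.Injective pI := iY.sumElim iI (fun a b h =>
    (Finset.mem_sdiff.1 (mI b)).2 (h ▸ mY a))
  have ip1 : Function.Injective p1 := iX2.sumElim iD1 (fun a b h =>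
    (Finset.mem_sdiff.1 (mD1 b)).2 (h ▸ mX2 a))
  have ip2 : Function.Injective p2 := iX1.sumElim iD2 (fun a b h =>
    (Finset.mem_sdiff.1 (mD2 b)).2 (h ▸ mX1 a))
  have rpI : (Finset.univ : Finset (TI q)).image pI = C.I := by
    apply Finset.Subset.antisymm
    · intro x hx; rw [Finset.mem_image] at hx; obtain ⟨y, _, rfl⟩ := hx; exact mpI y
    · intro x hx
      rw [Finset.mem_image]
      by_cases hxY : x ∈ Y
      · rw [← rY, Finset.mem_image] at hxY
        obtain ⟨i, _, rfl⟩ := hxY; exact ⟨Sum.inl i, Finset.mem_univ _, rfl⟩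
      · have : x ∈ C.I \ Y := Finset.mem_sdiff.2 ⟨hx, hxY⟩
        rw [← rI, Finset.mem_image] at this
        obtain ⟨i, _, rfl⟩ := this; exact ⟨Sum.inr i, Finset.mem_univ _, rfl⟩
  have rp1 : (Finset.univ : Finset (T1 q g)).image p1 = C.D1 := by
    apply Finset.Subset.antisymm
    · intro x hx; rw [Finset.mem_image] at hx; obtain ⟨y, _, rfl⟩ := hx; exact mp1 y
    · intro x hx
      rw [Finset.mem_image]
      by_cases hxY : x ∈ C.X2
      · rw [← rX2, Finset.mem_image] at hxY
        obtain ⟨i, _, rfl⟩ := hxY; exact ⟨Sum.inl i, Finset.mem_univ _, rfl⟩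
      · have : x ∈ C.D1 \ C.X2 := Finset.mem_sdiff.2 ⟨hx, hxY⟩
        rw [← rD1, Finset.mem_image] at this
        obtain ⟨i, _, rfl⟩ := this; exact ⟨Sum.inr i, Finset.mem_univ _, rfl⟩
  have rp2 : (Finset.univ : Finset (T2 q g)).image p2 = C.D2 := by
    apply Finset.Subset.antisymm
    · intro x hx; rw [Finset.mem_image] at hx; obtain ⟨y, _, rfl⟩ := hx; exact mp2 y
    · intro x hx
      rw [Finset.mem_image]
      by_cases hxY : x ∈ C.X1
      · rw [← rX1, Finset.mem_image] at hxY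
        obtain ⟨i, _, rfl⟩ := hxY; exact ⟨Sum.inl i, Finset.mem_univ _, rfl⟩
      · have : x ∈ C.D2 \ C.X1 := Finset.mem_sdiff.2 ⟨hx, hxY⟩
        rw [← rD2, Finset.mem_image] at this
        obtain ⟨i, _, rfl⟩ := this; exact ⟨Sum.inr i, Finset.mem_univ _, rfl⟩
  let φ : VT q g → ℕ := Sum.elim pI (Sum.elim p1 (Sum.elim p2 (fun _ => z)))
  have hzV := hz
  rw [Core.mem_V, not_or, not_or] at hzV
  have hφ : Function.Injective φ := by
    apply ipI.sumElim
    · apply ip1.sumElim
      · apply ip2.sumElim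
        · intro a b _; exact Subsingleton.elim _ _
        · intro a b h; exact hzV.2.2 (h ▸ mp2 a)
      · rintro a (b | b) h
        · exact C.n12 (mp1 a) (h ▸ mp2 b)
        · have h' : p1 a = z := h
          exact hzV.2.1 (h' ▸ mp1 a)
    · rintro a (b | b | b) h
      · exact C.nI1 (mpI a) (h ▸ mp1 b)
      · exact C.nI2 (mpI a) (h ▸ mp2 b)
      · have h' : pI a = z := h
        exact hzV.1 (h' ▸ mpI a)
  have eI : (kI : Finset (VT q g)).image φ = C.I := by
    rw [kI, Finset.image_image]; exact rpI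
  have e1 : (kD1 : Finset (VT q g)).image φ = C.D1 := by
    rw [kD1, Finset.image_image]; exact rp1
  have e2 : (kD2 : Finset (VT q g)).image φ = C.D2 := by
    rw [kD2, Finset.image_image]; exact rp2
  have eX1 : (kX1 : Finset (VT q g)).image φ = C.X1 := by
    rw [kX1, Finset.image_image]; exact rX1
  have eX2 : (kX2 : Finset (VT q g)).image φ = C.X2 := by
    rw [kX2, Finset.image_image]; exact rX2
  refine ⟨φ, hφ, ?_⟩
  intro s hs
  rcases mem_HV.1 hs with ⟨a, rfl⟩ | ⟨a, rfl⟩ | ⟨a, rfl⟩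
  · rw [F1, Finset.image_insert, Finset.image_union, eI, e1]
    exact hE (C.G1E (C.mem_G1.2 ⟨_, mX1 a, rfl⟩))
  · rw [F2, Finset.image_insert, Finset.image_union, eI, e2]
    exact hE (C.G2E (C.mem_G2.2 ⟨_, mX2 a, rfl⟩))
  · rw [F3, Finset.image_insert, Finset.image_insert, Finset.image_union, eX1, eX2]
    exact hYS _ (mY a)

lemma F1_inj : Function.Injective (F1 : Fin (2 * g) → Finset (VT q g)) := by
  intro a b h
  have h1 : j2 (Sum.inl a) ∈ (F1 b : Finset (VT q g)) := h ▸ Finset.mem_insert_self _ _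
  rw [F1, Finset.mem_insert] at h1
  rcases h1 with h1 | h1
  · exact Sum.inl_injective (j2_inj h1)
  · simp [kI, kD1, jI, j1, j2] at h1
lemma F2_inj : Function.Injective (F2 : Fin g → Finset (VT q g)) := by
  intro a b h
  have h1 : j1 (Sum.inl a) ∈ (F2 b : Finset (VT q g)) := h ▸ Finset.mem_insert_self _ _
  rw [F2, Finset.mem_insert] at h1
  rcases h1 with h1 | h1
  · exact Sum.inl_injective (j1_inj h1)
  · simp [kI, kD2, jI, j1, j2] at h1
lemma F3_inj : Function.Injective (F3 : Fin q → Finset (VT q g)) := by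
  intro a b h
  have h1 : jI (Sum.inl a) ∈ (F3 b : Finset (VT q g)) := by
    rw [← h, F3]; simp
  rw [F3, Finset.mem_insert, Finset.mem_insert] at h1
  rcases h1 with h1 | h1 | h1
  · simp [jI, jz] at h1
  · exact Sum.inl_injective (jI_inj h1)
  · simp [kX1, kX2, jI, j1, j2] at h1

open Classical in
lemma deg_HV (hq : 3 ≤ q) (hg : 4 * q + 10 ≤ g) (v : VT q g) :
    q ≤ ((HV q g).filter (fun s : Finset (VT q g) => v ∈ s)).card := by
  have key : ∀ {n : ℕ} (F : Fin n → Finset (VT q g)), Function.Injective F →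
      (∀ a, F a ∈ HV q g) → (∀ a, v ∈ F a) → n ≤ ((HV q g).filter (fun s : Finset (VT q g) => v ∈ s)).card := by
    intro n F hF h1 h2
    have h3 : (Finset.univ : Finset (Fin n)).image F ⊆ (HV q g).filter (fun s : Finset (VT q g) => v ∈ s) := by
      intro s hs; rw [Finset.mem_image] at hs
      obtain ⟨a, _, rfl⟩ := hs
      rw [Finset.mem_filter]; exact ⟨h1 a, h2 a⟩
    have h4 := Finset.card_le_card h3
    rw [Finset.card_image_of_injective _ hF] at h4
    simpa using h4
  have m1 : ∀ a, (F1 a : Finset (VT q g)) ∈ HV q g := fun a => mem_HV.2 (Or.inl ⟨a, rfl⟩)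
  have m2 : ∀ a, (F2 a : Finset (VT q g)) ∈ HV q g := fun a => mem_HV.2 (Or.inr (Or.inl ⟨a, rfl⟩))
  have m3 : ∀ a, (F3 a : Finset (VT q g)) ∈ HV q g := fun a => mem_HV.2 (Or.inr (Or.inr ⟨a, rfl⟩))
  rcases v with v | v | v | v
  · have := key F1 F1_inj m1 (fun a => by
      rw [F1]; apply Finset.mem_insert_of_mem; apply Finset.mem_union_left
      exact Finset.mem_image.2 ⟨v, Finset.mem_univ _, rfl⟩)
    omega
  · have := key F1 F1_inj m1 (fun a => by
      rw [F1]; apply Finset.mem_insert_of_mem; apply Finset.mem_union_right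
      exact Finset.mem_image.2 ⟨v, Finset.mem_univ _, rfl⟩)
    omega
  · have := key F2 F2_inj m2 (fun a => by
      rw [F2]; apply Finset.mem_insert_of_mem; apply Finset.mem_union_right
      exact Finset.mem_image.2 ⟨v, Finset.mem_univ _, rfl⟩)
    omega
  · exact key F3 F3_inj m3 (fun a => by rw [F3]; exact Finset.mem_insert_self _ _)

end Pool.Agent.H460SR
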