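import Pool.Agent.H460SR.Rigid

set_option autoImplicit false

namespace Pool.Agent.H460SR

open Finset

variable {q g : ℕ}

/-- type of the position when the attacker has made `3g+1` moves -/
def TypeN (q g : ℕ) (D E1 : Finset (Finset ℕ)) : Prop :=
  ∀ C : Core q g, ∀ z, z ∉ C.V → ∀ Y ⊆ C.I, Y.card = q → (∀ y ∈ Y, C.star y z ∉ D) →
    Disjoint C.E D → E1 ⊆ C.E ∪ Y.image (fun y => C.star y z) → C.E ⊆ E1

def TypeP (q g : ℕ) (D E1 : Finset (Finset ℕ)) : Prop :=
  ∃ C0 : Core q g, ∃ z0, z0 ∉ C0.V ∧ ∃ Y0 ⊆ C0.I, Y0.card ≤ q ∧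
    E1 ⊆ C0.E ∪ Y0.image (fun y => C0.star y z0) ∧ (C0.E ⊆ E1 ∨ ∃ e ∈ C0.E, e ∈ D)

lemma TypeN.mono {D D' E1 : Finset (Finset ℕ)} (h : TypeN q g D E1) (hD : D ⊆ D') :
    TypeN q g D' E1 := by
  intro C z hz Y hY hc h1 h2 h3
  exact h C z hz Y hY hc (fun y hy hh => h1 y hy (hD hh))
    (Finset.disjoint_of_subset_right hD h2) h3

lemma TypeP.mono {D D' E1 : Finset (Finset ℕ)} (h : TypeP q g D E1) (hD : D ⊆ D') :
    TypeP q g D' E1 := by
  obtain ⟨C0, z0, hz, Y, hY, hc, h1, h2⟩ := h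
  refine ⟨C0, z0, hz, Y, hY, hc, h1, ?_⟩
  rcases h2 with h2 | ⟨e, he, he'⟩
  · exact Or.inl h2
  · exact Or.inr ⟨e, he, hD he'⟩

lemma Ctx.noCopy {CS : Core q g} {E1 R P : Finset (Finset ℕ)} {f1 : Finset ℕ}
    (h : Ctx q g CS E1 R P f1) (hg : 4 * q + 10 ≤ g) (hq : 2 ≤ q)
    {F S D : Finset (Finset ℕ)} (hS : S ⊆ E1 ∪ R ∪ P ∪ F) (hSD : Disjoint S D)
    (hstar : ∀ C : Core q g, C.E ⊆ E1 → ∀ z, z ∉ C.V → C.s S z < q)
    (hT : (F.card + 1 ≤ q ∧ TypeN q g D E1) ∨ (F.card ≤ q ∧ TypeP q g D E1)) :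
    ¬ Copy q g S := by
  classical
  rintro ⟨C, z, hz, hCS, hs⟩
  have hFq : F.card ≤ q := by rcases hT with h1 | h1 <;> omega
  have hCE : C.E ⊆ E1 ∪ F := h.core hg hq hFq (hCS.trans hS)
  have hnE : ¬ C.E ⊆ E1 := by
    intro h1; have := hstar C h1 z hz; omega
  obtain ⟨e0, he0, he0E⟩ := Finset.not_subset.1 hnE
  have he0F : e0 ∈ F := by
    rcases Finset.mem_union.1 (hCE he0) with h1 | h1
    · exact absurd h1 he0E
    · exact h1
  obtain ⟨Y, hYs, hYc⟩ := Finset.exists_subset_card_eq hs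
  have hYI : Y ⊆ C.I := fun y hy => (Finset.mem_filter.1 (hYs hy)).1
  have hYS : ∀ y ∈ Y, C.star y z ∈ S := fun y hy => (Finset.mem_filter.1 (hYs hy)).2
  set Sg := Y.image (fun y => C.star y z) with hSg
  have hSgc : Sg.card = q := by
    rw [hSg, Finset.card_image_of_injOn, hYc]
    intro y hy y' hy' hh
    exact C.star_inj (hYI hy) (hYI hy') hz hh
  have hSgE : Disjoint C.E Sg := by
    rw [Finset.disjoint_left]; intro e he he'
    obtain ⟨y, _, rfl⟩ := Finset.mem_image.1 he'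
    exact C.star_notE hz he
  have he0S : e0 ∉ Sg := Finset.disjoint_left.1 hSgE he0
  have hSgR : ∀ e ∈ Sg, e ∉ R := by
    intro e he heR
    obtain ⟨y, hy, rfl⟩ := Finset.mem_image.1 he
    obtain ⟨C1, hC1, y1, hy1, z1, hz1, he1⟩ := h.hR _ heR
    have hsf : SF C C1 := by
      apply same_frame hg
      have h1 : C.E \ C1.E ⊆ (E1 \ C1.E) ∪ F := by
        intro e he; rw [Finset.mem_sdiff] at he
        rw [Finset.mem_union, Finset.mem_sdiff]
        rcases Finset.mem_union.1 (hCE he.1) with h2 | h2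
        · exact Or.inl ⟨h2, he.2⟩
        · exact Or.inr h2
      have h2 := (Finset.card_le_card h1).trans (Finset.card_union_le _ _)
      rw [Finset.card_sdiff_of_subset hC1, h.cE1, C1.cE hg] at h2
      omega
    have := (hsf.star_eq (hYI hy) hz hy1 hz1 he1).1
    exact hnE (this ▸ hC1)
  -- P edges in Sg
  have hPz : ∀ p ∈ Sg, p ∈ P → z ∉ CS.V ∧ (∀ e ∈ E1, z ∉ e) ∧ ∃ y' ∈ CS.I, p = CS.star y' z := by
    intro p hp hpP
    obtain ⟨y, hy, hpe⟩ := Finset.mem_image.1 hp
    obtain ⟨y', hy', zp, hzp, hzpE, hpe'⟩ := h.hP p hpP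
    have hzpp : zp ∈ C.star y z := by rw [hpe, hpe']; simp [Core.star]
    have : zp = z := by
      simp only [Core.star, Finset.mem_insert] at hzpp
      by_contra hne
      have hzV : zp ∈ C.V := by
        rcases hzpp with h1 | h1 | h1
        · exact absurd h1 hne
        · exact h1 ▸ C.IV (hYI hy)
        · exact C.XV h1
      have hsub : ∀ G : Finset (Finset ℕ), G ⊆ C.E → (∀ e ∈ G, zp ∈ e) → G.card ≤ q := by
        intro G hG hGz
        have : G ⊆ F := by
          intro e he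
          rcases Finset.mem_union.1 (hCE (hG he)) with h1 | h1
          · exact absurd (hGz e he) (hzpE e h1)
          · exact h1
        exact (Finset.card_le_card this).trans hFq
      rcases C.vertex_group hzV with h1 | h1
      · have := hsub C.G1 C.G1E h1; rw [C.cG1] at this; omega
      · have := hsub C.G2 C.G2E h1; rw [C.cG2] at this; omega
    subst this
    exact ⟨hzp, hzpE, y', hy', hpe'⟩
  have hSgP : (Sg ∩ P).card ≤ 1 := by
    rw [Finset.card_le_one]
    intro p hp p' hp'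
    rw [Finset.mem_inter] at hp hp'
    have h1 := hPz p hp.1 hp.2
    have zin : ∀ e ∈ Sg, z ∈ e := by
      intro e he; obtain ⟨y, _, rfl⟩ := Finset.mem_image.1 he; simp [Core.star]
    exact h.hPu p hp.2 p' hp'.2 z h1.1 (zin p hp.1) (zin p' hp'.1)
  have hSgF : (Sg ∩ F).card + 1 ≤ F.card := by
    have h1 : Sg ∩ F ⊆ F.erase e0 := by
      intro e he; rw [Finset.mem_inter] at he
      rw [Finset.mem_erase]; exact ⟨fun h2 => he0S (h2 ▸ he.1), he.2⟩
    have h2 := Finset.card_le_card h1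
    rw [Finset.card_erase_of_mem he0F] at h2
    have : 0 < F.card := Finset.card_pos.2 ⟨e0, he0F⟩
    omega
  have hSgsub : Sg ⊆ (Sg ∩ E1) ∪ (Sg ∩ P) ∪ (Sg ∩ F) := by
    intro e he
    obtain ⟨y, hy, hye⟩ := Finset.mem_image.1 he
    have h1 := hS (hye ▸ hYS y hy : e ∈ S)
    simp only [Finset.mem_union, Finset.mem_inter] at h1 ⊢
    rcases h1 with ((h1 | h1) | h1) | h1
    · exact Or.inl (Or.inl ⟨he, h1⟩)
    · exact absurd h1 (hSgR e he)
    · exact Or.inl (Or.inr ⟨he, h1⟩)
    · exact Or.inr ⟨he, h1⟩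
  have hcount : q ≤ (Sg ∩ E1).card + (Sg ∩ P).card + (Sg ∩ F).card := by
    have h1 := Finset.card_le_card hSgsub
    have h2 := Finset.card_union_le ((Sg ∩ E1) ∪ (Sg ∩ P)) (Sg ∩ F)
    have h3 := Finset.card_union_le (Sg ∩ E1) (Sg ∩ P)
    omega
  rcases hT with ⟨hF, hN⟩ | ⟨hF, hPure⟩
  · -- type N
    by_cases hb : (Sg ∩ P) = ∅
    · -- E1 ⊆ copy
      have hsub : C.E ∪ Sg ⊆ E1 ∪ F := by
        apply Finset.union_subset hCE
        intro e he
        have := hSgsub he
        rw [hb] at this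
        simp only [Finset.mem_union, Finset.mem_inter, Finset.notMem_empty, or_false] at this ⊢
        rcases this with h1 | h1
        · exact Or.inl h1.2
        · exact Or.inr h1.2
      have hcard : (C.E ∪ Sg).card = 3 * g + q := by
        rw [Finset.card_union_of_disjoint hSgE, C.cE hg, hSgc]
      have h1 : (C.E ∪ Sg) \ E1 ⊆ F := by
        intro e he; rw [Finset.mem_sdiff] at he
        rcases Finset.mem_union.1 (hsub he.1) with h2 | h2
        · exact absurd h2 he.2
        · exact h2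
      have h2 := Finset.card_le_card h1
      have h3 := Finset.card_sdiff_add_card_inter (C.E ∪ Sg) E1
      have h4 : E1.card ≤ ((C.E ∪ Sg) ∩ E1).card := by rw [h.cE1]; omega
      have h5 : (C.E ∪ Sg) ∩ E1 = E1 := Finset.eq_of_subset_of_card_le Finset.inter_subset_right h4
      have h6 : E1 ⊆ C.E ∪ Sg := by rw [← h5]; exact Finset.inter_subset_left
      apply hnE
      refine hN C z hz Y hYI hYc ?_ (Finset.disjoint_of_subset_left hCS hSD) h6
      intro y hy hh
      exact Finset.disjoint_left.1 hSD (hYS y hy) hh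
    · -- a P-edge: then no E1 star edges
      obtain ⟨p, hp⟩ := Finset.nonempty_iff_ne_empty.2 hb
      rw [Finset.mem_inter] at hp
      have h1 := hPz p hp.1 hp.2
      have h2 : Sg ∩ E1 = ∅ := by
        rw [Finset.eq_empty_iff_forall_notMem]
        intro e he; rw [Finset.mem_inter] at he
        obtain ⟨y, _, rfl⟩ := Finset.mem_image.1 he.1
        exact h1.2.1 _ he.2 (by simp [Core.star])
      rw [h2, Finset.card_empty] at hcount
      omega
  · -- pure type
    obtain ⟨C0, z0, hz0, Y0, hY0, hY0c, hE1, hC0⟩ := hPure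
    have hd : (C.E \ C0.E).card ≤ 2 * q := by
      have h1 : C.E \ C0.E ⊆ (Y0.image (fun y => C0.star y z0)) ∪ F := by
        intro e he; rw [Finset.mem_sdiff] at he
        rw [Finset.mem_union]
        rcases Finset.mem_union.1 (hCE he.1) with h2 | h2
        · rcases Finset.mem_union.1 (hE1 h2) with h3 | h3
          · exact absurd h3 he.2
          · exact Or.inl h3
        · exact Or.inr h2
      have h2 := (Finset.card_le_card h1).trans (Finset.card_union_le _ _)
      have h3 : (Y0.image (fun y => C0.star y z0)).card ≤ Y0.card := Finset.card_image_le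
      omega
    have hsf : SF C C0 := same_frame hg (by omega)
    have hCne : C ≠ C0 := by
      intro hh; subst hh
      rcases hC0 with h1 | ⟨e, he, heD⟩
      · exact hnE h1
      · exact Finset.disjoint_left.1 hSD (hCS he) heD
    have ha : Sg ∩ E1 = ∅ := by
      rw [Finset.eq_empty_iff_forall_notMem]
      intro e he; rw [Finset.mem_inter] at he
      obtain ⟨y, hy, hye⟩ := Finset.mem_image.1 he.1
      rcases Finset.mem_union.1 (hE1 he.2) with h1 | h1
      · apply hz; rw [hsf.V]; apply C0.E_sub_V h1; rw [← hye]; simp [Core.star]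
      · obtain ⟨y0, hy0, hye0⟩ := Finset.mem_image.1 h1
        exact hCne (hsf.star_eq (hYI hy) hz (hY0 hy0) hz0 (hye.trans hye0.symm)).1
    rw [ha, Finset.card_empty] at hcount
    have hb : 1 ≤ (Sg ∩ P).card := by omega
    obtain ⟨p, hp⟩ := Finset.card_pos.1 (by omega : 0 < (Sg ∩ P).card)
    rw [Finset.mem_inter] at hp
    obtain ⟨hzS, hzE1, y', hy', hpe⟩ := hPz p hp.1 hp.2
    obtain ⟨y, hy, hye⟩ := Finset.mem_image.1 hp.1
    have hXS : ∀ v ∈ C.X, v ∈ CS.V := by
      intro v hv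
      have h1 : v ∈ CS.star y' z := by rw [← hpe, ← hye]; simp [Core.star, hv]
      simp only [Core.star, Finset.mem_insert] at h1
      rcases h1 with h1 | h1 | h1
      · exact absurd (h1 ▸ C.XV hv) hz
      · exact h1 ▸ CS.IV hy'
      · exact CS.XV h1
    rcases Finset.mem_union.1 (hE1 h.f1m) with h1 | h1
    · -- f1 in C0.E
      have hex : ∃ v ∈ C.X, v ∈ f1 := by
        rcases C0.mem_E.1 h1 with h2 | h2
        · obtain ⟨a, _, rfl⟩ := C0.mem_G1.1 h2
          obtain ⟨v, hv⟩ : C.X2.Nonempty := by rw [← Finset.card_pos, C.cX2]; omega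
          exact ⟨v, C.mem_X.2 (Or.inr hv), Finset.mem_insert_of_mem (hsf.K1 ▸ C.b_K1 hv)⟩
        · obtain ⟨a, _, rfl⟩ := C0.mem_G2.1 h2
          obtain ⟨v, hv⟩ : C.X1.Nonempty := by rw [← Finset.card_pos, C.cX1]; omega
          exact ⟨v, C.mem_X.2 (Or.inl hv), Finset.mem_insert_of_mem (hsf.K2 ▸ C.a_K2 hv)⟩
      obtain ⟨v, hv, hvf⟩ := hex
      exact Finset.disjoint_left.1 h.f1S hvf (hXS v hv)
    · obtain ⟨y0, hy0, hye0⟩ := Finset.mem_image.1 h1
      have hne : (C.E ∩ C0.E).Nonempty := by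
        rw [← Finset.card_pos]
        have := Finset.card_sdiff_add_card_inter C.E C0.E
        rw [C.cE hg] at this; omega
      obtain ⟨a, ha1, ha2⟩ := hsf.common_leaf hne hg
      apply Finset.disjoint_left.1 h.f1S _ (hXS a ha1)
      rw [← hye0]; simp [Core.star, ha2]

end Pool.Agent.H460SR
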