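import Pool.Agent.H460SR.Core

set_option autoImplicit false

namespace Pool.Agent.H460SR

open Finset

variable {q g : ℕ}

/-- the classification of the attacker's edges -/
structure Ctx (q g : ℕ) (CS : Core q g) (E1 R P : Finset (Finset ℕ)) (f1 : Finset ℕ) : Prop where
  cE1 : E1.card = 3 * g + 1
  f1m : f1 ∈ E1
  f1S : Disjoint f1 CS.V
  hP : ∀ p ∈ P, ∃ y ∈ CS.I, ∃ z, z ∉ CS.V ∧ (∀ e ∈ E1, z ∉ e) ∧ p = CS.star y z
  hPu : ∀ p ∈ P, ∀ p' ∈ P, ∀ z, z ∉ CS.V → z ∈ p → z ∈ p' → p = p'
  hR : ∀ r ∈ R, ∃ C : Core q g, C.E ⊆ E1 ∧ ∃ y ∈ C.I, ∃ z, z ∉ C.V ∧ r = C.star y z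

/-- two edges of a core with large intersection are in the same group -/
lemma Core.same_group (C : Core q g) {e e' : Finset ℕ} (he : e ∈ C.E) (he' : e' ∈ C.E)
    (h : 2 * q < (e ∩ e').card) : (e ∈ C.G1 ∧ e' ∈ C.G1) ∨ (e ∈ C.G2 ∧ e' ∈ C.G2) := by
  rw [Core.mem_E] at he he'
  rcases he with he | he <;> rcases he' with he' | he'
  · exact Or.inl ⟨he, he'⟩
  · have := C.inter_cross he he'; omega
  · have := C.inter_cross he' he; rw [Finset.inter_comm] at this; omega
  · exact Or.inr ⟨he, he'⟩

lemma Ctx.E1V {CS : Core q g} {E1 R P : Finset (Finset ℕ)} {f1 : Finset ℕ}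
    (_h : Ctx q g CS E1 R P f1) {C : Core q g} (hC : C.E ⊆ E1) (hg : 4 * q + 10 ≤ g) {z : ℕ}
    (hz : ∀ e ∈ E1, z ∉ e) : z ∉ C.V := by
  intro hv
  rcases C.vertex_group hv with h1 | h1
  · have : C.G1.Nonempty := by rw [← Finset.card_pos, C.cG1]; omega
    obtain ⟨e, he⟩ := this
    exact hz e (hC (C.G1E he)) (h1 e he)
  · have : C.G2.Nonempty := by rw [← Finset.card_pos, C.cG2]; omega
    obtain ⟨e, he⟩ := this
    exact hz e (hC (C.G2E he)) (h1 e he)

/-- all cores inside `E1` have the same frame -/
lemma Ctx.frame {CS : Core q g} {E1 R P : Finset (Finset ℕ)} {f1 : Finset ℕ}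
    (h : Ctx q g CS E1 R P f1) (hg : 4 * q + 10 ≤ g) {C C' : Core q g}
    (hC : C.E ⊆ E1) (hC' : C'.E ⊆ E1) : SF C C' := by
  apply same_frame hg
  have h1 : C.E \ C'.E ⊆ E1 \ C'.E := Finset.sdiff_subset_sdiff hC (le_refl _)
  have h2 := Finset.card_le_card h1
  rw [Finset.card_sdiff_of_subset hC', h.cE1, C'.cE hg] at h2
  omega

/-- If most edges of `C` in the group `G` avoid `R`, `P`, few in `F`, then many in `C0.E`. -/
lemma Ctx.many {CS : Core q g} {E1 R P : Finset (Finset ℕ)} {f1 : Finset ℕ}
    (h : Ctx q g CS E1 R P f1) (hg : 4 * q + 10 ≤ g) {C0 : Core q g} (hC0 : C0.E ⊆ E1)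
    {F G : Finset (Finset ℕ)} (hF : F.card ≤ q) (hG : G ⊆ E1 ∪ R ∪ P ∪ F)
    (hGR : ∀ e ∈ G, e ∉ R) (hGP : (G ∩ P).card ≤ 1) (hGg : g ≤ G.card) :
    3 ≤ (G ∩ C0.E).card := by
  have h1 : G ⊆ (G ∩ C0.E) ∪ (E1 \ C0.E) ∪ (G ∩ P) ∪ F := by
    intro e he
    have := hG he
    simp only [Finset.mem_union, Finset.mem_inter, Finset.mem_sdiff] at this ⊢
    rcases this with ((h1 | h1) | h1) | h1
    · by_cases h2 : e ∈ C0.E
      · exact Or.inl (Or.inl (Or.inl ⟨he, h2⟩))
      · exact Or.inl (Or.inl (Or.inr ⟨h1, h2⟩))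
    · exact absurd h1 (hGR e he)
    · exact Or.inl (Or.inr ⟨he, h1⟩)
    · exact Or.inr h1
  have h2 := Finset.card_le_card h1
  have h3 := Finset.card_union_le ((G ∩ C0.E) ∪ (E1 \ C0.E) ∪ (G ∩ P)) F
  have h4 := Finset.card_union_le ((G ∩ C0.E) ∪ (E1 \ C0.E)) (G ∩ P)
  have h5 := Finset.card_union_le (G ∩ C0.E) (E1 \ C0.E)
  have h6 : (E1 \ C0.E).card = 1 := by
    rw [Finset.card_sdiff_of_subset hC0, h.cE1, C0.cE hg]; omega
  omega

/-- at most one `P`-edge in a core -/
lemma Ctx.P_unique {CS : Core q g} {E1 R P : Finset (Finset ℕ)} {f1 : Finset ℕ}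
    (h : Ctx q g CS E1 R P f1) (hg : 4 * q + 10 ≤ g)
    {F : Finset (Finset ℕ)} (hF : F.card ≤ q) {C : Core q g} (hC : C.E ⊆ E1 ∪ R ∪ P ∪ F)
    {p p' : Finset ℕ} (hp : p ∈ P) (hp' : p' ∈ P) (hpC : p ∈ C.E) (hpC' : p' ∈ C.E) : p = p' := by
  by_contra hne
  obtain ⟨y, hy, z, hz, hzE, hpe⟩ := h.hP p hp
  obtain ⟨y', hy', z', hz', hzE', hpe'⟩ := h.hP p' hp'
  have hzp : z ∈ p := by rw [hpe]; simp [Core.star]
  have hzp' : z' ∈ p' := by rw [hpe']; simp [Core.star]
  have hnz : z ∉ p' := fun h1 => hne (h.hPu p hp p' hp' z hz hzp h1)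
  have hnz' : z' ∉ p := fun h1 => hne (h.hPu p hp p' hp' z' hz' h1 hzp')
  have hzz : z ≠ z' := fun h1 => hnz (h1 ▸ hzp')
  have hX : CS.X ⊆ p ∩ p' := by
    intro v hv; rw [hpe, hpe']; simp [Core.star, hv]
  have hcard : 2 * q < (p ∩ p').card := by
    have := Finset.card_le_card hX; rw [CS.cX] at this; omega
  -- every edge containing both z, z' lies in F
  have key : ∀ e ∈ C.E, z ∈ e → z' ∈ e → e ∈ F := by
    intro e he h1 h2
    have := hC he
    simp only [Finset.mem_union] at this
    rcases this with ((h3 | h3) | h3) | h3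
    · exact absurd h1 (hzE e h3)
    · exfalso
      obtain ⟨C1, hC1, w, hw, u, hu, rfl⟩ := h.hR e h3
      have hV := h.E1V hC1 hg hzE
      have hV' := h.E1V hC1 hg hzE'
      simp only [Core.star, Finset.mem_insert] at h1 h2
      rcases h1 with h1 | h1 | h1
      · rcases h2 with h2 | h2 | h2
        · exact hzz (h1.trans h2.symm)
        · exact hV' (h2 ▸ C1.IV hw)
        · exact hV' (C1.XV h2)
      · exact hV (h1 ▸ C1.IV hw)
      · exact hV (C1.XV h1)
    · exfalso
      have e1 := h.hPu p hp e h3 z hz hzp h1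
      have e2 := h.hPu p' hp' e h3 z' hz' hzp' h2
      exact hne (e1.trans e2.symm)
    · exact h3
  rcases C.same_group hpC hpC' hcard with ⟨hg1, hg2⟩ | ⟨hg1, hg2⟩
  · obtain ⟨a, ha, hae⟩ := C.mem_G1.1 hg1
    obtain ⟨a', ha', hae'⟩ := C.mem_G1.1 hg2
    have e1 : z = a := by
      rw [← hae, Finset.mem_insert] at hzp
      rcases hzp with h1 | h1
      · exact h1
      · exact absurd (hae' ▸ Finset.mem_insert_of_mem h1) hnz
    have e2 : z' = a' := by
      rw [← hae', Finset.mem_insert] at hzp'
      rcases hzp' with h1 | h1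
      · exact h1
      · exact absurd (hae ▸ Finset.mem_insert_of_mem h1) hnz'
    have : C.G2 ⊆ F := by
      intro e he
      apply key e (C.G2E he)
      · obtain ⟨b, _, rfl⟩ := C.mem_G2.1 he
        exact Finset.mem_insert_of_mem (e1 ▸ C.a_K2 ha)
      · obtain ⟨b, _, rfl⟩ := C.mem_G2.1 he
        exact Finset.mem_insert_of_mem (e2 ▸ C.a_K2 ha')
    have := Finset.card_le_card this
    rw [C.cG2] at this; omega
  · obtain ⟨a, ha, hae⟩ := C.mem_G2.1 hg1
    obtain ⟨a', ha', hae'⟩ := C.mem_G2.1 hg2
    have e1 : z = a := by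
      rw [← hae, Finset.mem_insert] at hzp
      rcases hzp with h1 | h1
      · exact h1
      · exact absurd (hae' ▸ Finset.mem_insert_of_mem h1) hnz
    have e2 : z' = a' := by
      rw [← hae', Finset.mem_insert] at hzp'
      rcases hzp' with h1 | h1
      · exact h1
      · exact absurd (hae ▸ Finset.mem_insert_of_mem h1) hnz'
    have : C.G1 ⊆ F := by
      intro e he
      apply key e (C.G1E he)
      · obtain ⟨b, _, rfl⟩ := C.mem_G1.1 he
        exact Finset.mem_insert_of_mem (e1 ▸ C.b_K1 ha)
      · obtain ⟨b, _, rfl⟩ := C.mem_G1.1 he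
        exact Finset.mem_insert_of_mem (e2 ▸ C.b_K1 ha')
    have := Finset.card_le_card this
    rw [C.cG1] at this; omega

/-- if z' lies in every edge of a group which has no `R`, few `P`, `z ∉ V(C0)` : contradiction -/
lemma Ctx.few {CS : Core q g} {E1 R P : Finset (Finset ℕ)} {f1 : Finset ℕ}
    (h : Ctx q g CS E1 R P f1) (hg : 4 * q + 10 ≤ g) {C0 : Core q g} (hC0 : C0.E ⊆ E1)
    {F G : Finset (Finset ℕ)} (hF : F.card ≤ q) (hG : G ⊆ E1 ∪ R ∪ P ∪ F)
    (hGR : ∀ e ∈ G, e ∉ R) (hGP : (G ∩ P).card ≤ 1) (hGg : g ≤ G.card)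
    {z : ℕ} (hz : z ∉ C0.V) (hzG : ∀ e ∈ G, z ∈ e) : False := by
  have h3 := h.many hg hC0 hF hG hGR hGP hGg
  obtain ⟨e, he⟩ : (G ∩ C0.E).Nonempty := by rw [← Finset.card_pos]; omega
  rw [Finset.mem_inter] at he
  exact hz (C0.E_sub_V he.2 (hzG e he.1))

/-- **rigidity lemma**: a core in the attacker's graph uses only `E1` and `F`. -/
lemma Ctx.core {CS : Core q g} {E1 R P : Finset (Finset ℕ)} {f1 : Finset ℕ}
    (h : Ctx q g CS E1 R P f1) (hg : 4 * q + 10 ≤ g) (hq : 2 ≤ q)
    {F : Finset (Finset ℕ)} (hF : F.card ≤ q) {C : Core q g} (hC : C.E ⊆ E1 ∪ R ∪ P ∪ F) :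
    C.E ⊆ E1 ∪ F := by
  classical
  have hPc : ∀ G : Finset (Finset ℕ), G ⊆ C.E → (G ∩ P).card ≤ 1 := by
    intro G hG
    rw [Finset.card_le_one]
    intro p hp p' hp'
    rw [Finset.mem_inter] at hp hp'
    exact h.P_unique hg hF hC hp.2 hp'.2 (hG hp.1) (hG hp'.1)
  -- no R-edge
  have hnoR : ∀ r ∈ C.E, r ∉ R := by
    intro r hrC hrR
    obtain ⟨C1, hC1, y, hy, z, hz, hre⟩ := h.hR r hrR
    -- all R edges pairwise have large intersection
    have hRR : ∀ r' ∈ R, 2 * q < (r ∩ r').card := by
      intro r' hr'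
      obtain ⟨C2, hC2, y2, hy2, z2, hz2, hre'⟩ := h.hR r' hr'
      have hsf := h.frame hg hC1 hC2
      -- X1 of C1 and C2 share many
      have hsub : C1.X ∩ C2.X ⊆ r ∩ r' := by
        intro v hv; rw [Finset.mem_inter] at hv ⊢
        rw [hre, hre']; simp [Core.star, hv.1, hv.2]
      have hcard : 3 * g ≤ (C1.X ∩ C2.X).card + 1 := by
        -- edges of C1 not in C2 at most one
        have hd : (C1.E \ C2.E).card ≤ 1 := by
          have h1 : C1.E \ C2.E ⊆ E1 \ C2.E := Finset.sdiff_subset_sdiff hC1 (le_refl _)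
          have h2 := Finset.card_le_card h1
          rw [Finset.card_sdiff_of_subset hC2, h.cE1, C2.cE hg] at h2
          omega
        -- map leaf ↦ edge
        have hinj : (C1.X \ C2.X).card ≤ (C1.E \ C2.E).card := by
          apply Finset.card_le_card_of_injOn
            (fun a => if a ∈ C1.X1 then insert a C1.K1 else insert a C1.K2)
          · intro a ha
            simp only [Finset.coe_sdiff, Set.mem_diff, Finset.mem_coe] at ha
            obtain ⟨ha1, ha2⟩ := ha
            simp only [Finset.coe_sdiff, Set.mem_diff, Finset.mem_coe]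
            by_cases hx : a ∈ C1.X1
            · simp only [hx, if_true]
              refine ⟨C1.G1E (C1.mem_G1.2 ⟨a, hx, rfl⟩), ?_⟩
              intro hmem
              rcases C2.mem_E.1 hmem with hm | hm
              · obtain ⟨b, hb, hbe⟩ := C2.mem_G1.1 hm
                rw [← hsf.K1] at hbe
                have := Core.insert_inj (C1.a_notK1 hx) hbe.symm
                exact ha2 (C2.mem_X.2 (Or.inl (this ▸ hb)))
              · obtain ⟨b, hb, hbe⟩ := C2.mem_G2.1 hm
                rw [← hsf.K2] at hbe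
                have hsub : C1.D2 ⊆ {a} := by
                  intro v hv
                  have hv' : v ∈ insert a C1.K1 :=
                    hbe ▸ Finset.mem_insert_of_mem (C1.mem_K2.2 (Or.inr hv))
                  rcases Finset.mem_insert.1 hv' with h | h
                  · simp [h]
                  · rw [Core.mem_K1] at h
                    rcases h with h | h
                    · exact absurd hv (C1.nI2 h)
                    · exact absurd hv (C1.n12 h)
                have h5 := Finset.card_le_card hsub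
                have h6 := C1.c2; simp only [Finset.card_singleton] at h5; omega
            · simp only [hx, if_false]
              have hx2 : a ∈ C1.X2 := by
                rcases C1.mem_X.1 ha1 with h | h
                · exact absurd h hx
                · exact h
              refine ⟨C1.G2E (C1.mem_G2.2 ⟨a, hx2, rfl⟩), ?_⟩
              intro hmem
              rcases C2.mem_E.1 hmem with hm | hm
              · obtain ⟨b, hb, hbe⟩ := C2.mem_G1.1 hm
                rw [← hsf.K1] at hbe
                have hsub : C1.D1 ⊆ {a} := by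
                  intro v hv
                  have hv' : v ∈ insert a C1.K2 :=
                    hbe ▸ Finset.mem_insert_of_mem (C1.mem_K1.2 (Or.inr hv))
                  rcases Finset.mem_insert.1 hv' with h | h
                  · simp [h]
                  · rw [Core.mem_K2] at h
                    rcases h with h | h
                    · exact absurd hv (C1.nI1 h)
                    · exact absurd hv (C1.n21 h)
                have h5 := Finset.card_le_card hsub
                have h6 := C1.c1; simp only [Finset.card_singleton] at h5; omega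
              · obtain ⟨b, hb, hbe⟩ := C2.mem_G2.1 hm
                rw [← hsf.K2] at hbe
                have := Core.insert_inj (C1.b_notK2 hx2) hbe.symm
                exact ha2 (C2.mem_X.2 (Or.inr (this ▸ hb)))
          · intro a ha b hb hab
            simp only [Finset.coe_sdiff, Set.mem_diff, Finset.mem_coe] at ha hb
            by_cases hx : a ∈ C1.X1 <;> by_cases hx' : b ∈ C1.X1
            · simp only [hx, hx', if_true] at hab
              exact Core.insert_inj (C1.a_notK1 hx) hab
            · simp only [hx, hx', if_true, if_false] at hab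
              have hb2 : b ∈ C1.X2 := by
                rcases C1.mem_X.1 hb.1 with h | h
                · exact absurd h hx'
                · exact h
              exfalso
              have h7 : insert a C1.K1 ∈ C1.G1 := C1.mem_G1.2 ⟨a, hx, rfl⟩
              have h8 : insert a C1.K1 ∈ C1.G2 := C1.mem_G2.2 ⟨b, hb2, hab.symm⟩
              exact Finset.disjoint_left.1 (C1.dG hg) h7 h8
            · simp only [hx, hx', if_true, if_false] at hab
              have ha2 : a ∈ C1.X2 := by
                rcases C1.mem_X.1 ha.1 with h | h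
                · exact absurd h hx
                · exact h
              exfalso
              have h7 : insert b C1.K1 ∈ C1.G1 := C1.mem_G1.2 ⟨b, hx', rfl⟩
              have h8 : insert b C1.K1 ∈ C1.G2 := C1.mem_G2.2 ⟨a, ha2, hab⟩
              exact Finset.disjoint_left.1 (C1.dG hg) h7 h8
            · simp only [hx, hx', if_false] at hab
              have ha2 : a ∈ C1.X2 := by
                rcases C1.mem_X.1 ha.1 with h | h
                · exact absurd h hx
                · exact h
              exact Core.insert_inj (C1.b_notK2 ha2) hab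
        have h9 := Finset.card_sdiff_add_card_inter C1.X C2.X
        rw [C1.cX] at h9; omega
      have := Finset.card_le_card hsub
      omega
    -- the group of r, and the other group
    have main : ∀ (G G' : Finset (Finset ℕ)) (K K' : Finset ℕ),
        G ⊆ C.E → G' ⊆ C.E → r ∈ G → (∀ e ∈ G', 2 * q < (r ∩ e).card → False) →
        g ≤ G'.card → (∃ a, r = insert a K) → (K ∩ K').card + 2 = 2 * q →
        (3 ≤ (G' ∩ C1.E).card → K' = C1.K1 ∨ K' = C1.K2) → False := by
      intro G G' K K' hGE hGE' hrG hno hcard ⟨a, ha⟩ hKK hker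
      have hG'R : ∀ e ∈ G', e ∉ R := fun e he heR => hno e he (hRR e heR)
      have h3 := h.many hg hC1 hF (hGE'.trans hC) hG'R (hPc G' hGE') hcard
      have hXD : ∀ T : Finset ℕ, T ⊆ r → T ⊆ K' → g ≤ T.card → False := by
        intro T h1 h2 h3
        have h4 : T ⊆ insert a (K ∩ K') := by
          intro v hv
          have := h1 hv; rw [ha, Finset.mem_insert] at this
          rw [Finset.mem_insert, Finset.mem_inter]
          rcases this with h5 | h5
          · exact Or.inl h5
          · exact Or.inr ⟨h5, h2 hv⟩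
        have h5 := (Finset.card_le_card h4).trans (Finset.card_insert_le _ _)
        omega
      rcases hker h3 with hK | hK
      · apply hXD C1.X2 _ _ C1.cX2.ge
        · intro v hv; rw [hre]; simp [Core.star, C1.mem_X.2 (Or.inr hv)]
        · intro v hv; rw [hK]; exact C1.b_K1 hv
      · apply hXD C1.X1 _ _ (by rw [C1.cX1]; omega)
        · intro v hv; rw [hre]; simp [Core.star, C1.mem_X.2 (Or.inl hv)]
        · intro v hv; rw [hK]; exact C1.a_K2 hv
    rcases C.mem_E.1 hrC with hr1 | hr2
    · obtain ⟨a, _, hae⟩ := C.mem_G1.1 hr1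
      apply main C.G1 C.G2 C.K1 C.K2 C.G1E C.G2E hr1 _ C.cG2.ge ⟨a, hae.symm⟩
      · rw [C.K_inter]; exact C.cI
      · exact kernel2
      · intro e he hlt
        have := C.inter_cross hr1 he; omega
    · obtain ⟨a, _, hae⟩ := C.mem_G2.1 hr2
      apply main C.G2 C.G1 C.K2 C.K1 C.G2E C.G1E hr2 _ (by rw [C.cG1]; omega) ⟨a, hae.symm⟩
      · rw [Finset.inter_comm, C.K_inter]; exact C.cI
      · exact kernel1
      · intro e he hlt
        have := C.inter_cross he hr2; rw [Finset.inter_comm] at this; omega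
  -- no P-edge
  have hnoP : ∀ p ∈ C.E, p ∉ P := by
    intro p hpC hpP
    obtain ⟨y, hy, z, hz, hzE, hpe⟩ := h.hP p hpP
    have hzp : z ∈ p := by rw [hpe]; simp [Core.star]
    have key : ∀ e ∈ C.E, z ∈ e → e = p ∨ e ∈ F := by
      intro e he hze
      have := hC he
      simp only [Finset.mem_union] at this
      rcases this with ((h3 | h3) | h3) | h3
      · exact absurd hze (hzE e h3)
      · exact absurd h3 (hnoR e he)
      · left; exact (h.hPu p hpP e h3 z hz hzp hze).symm
      · right; exact h3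
    have hsub : ∀ G : Finset (Finset ℕ), G ⊆ C.E → (∀ e ∈ G, z ∈ e) → G.card ≤ q + 1 := by
      intro G hG hGz
      have : G ⊆ insert p F := by
        intro e he; rw [Finset.mem_insert]; exact key e (hG he) (hGz e he)
      exact (Finset.card_le_card this).trans ((Finset.card_insert_le _ _).trans (by omega))
    rcases C.vertex_group (C.E_sub_V hpC hzp) with h1 | h1
    · have := hsub C.G1 C.G1E h1; rw [C.cG1] at this; omega
    · have := hsub C.G2 C.G2E h1; rw [C.cG2] at this; omega
  intro e he
  have := hC he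
  simp only [Finset.mem_union] at this ⊢
  rcases this with ((h3 | h3) | h3) | h3
  · exact Or.inl h3
  · exact absurd h3 (hnoR e he)
  · exact absurd h3 (hnoP e he)
  · exact Or.inr h3

end Pool.Agent.H460SR
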