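import Pool.Agent.H460SR.State

set_option autoImplicit false

namespace Pool.Agent.H460SR

open Finset

variable {q g : ℕ}

/-- a core inside a set of `3g+1` edges has at most one star edge there -/
lemma s_le_one (hg : 4 * q + 10 ≤ g) {C : Core q g} {A : Finset (Finset ℕ)}
    (hA : A.card = 3 * g + 1) (hC : C.E ⊆ A) {z : ℕ} (hz : z ∉ C.V) : C.s A z ≤ 1 := by
  have h1 : (C.I.filter (fun y => C.star y z ∈ A)).card ≤ (A \ C.E).card := by
    apply Finset.card_le_card_of_injOn (fun y => C.star y z)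
    · intro y hy
      simp only [Finset.coe_filter, Set.mem_setOf_eq] at hy
      simp only [Finset.coe_sdiff, Set.mem_diff, Finset.mem_coe]
      exact ⟨hy.2, C.star_notE hz⟩
    · intro y hy y' hy' h
      simp only [Finset.coe_filter, Set.mem_setOf_eq] at hy hy'
      exact C.star_inj hy.1 hy'.1 hz h
  rw [Finset.card_sdiff_of_subset hC, hA, C.cE hg] at h1
  unfold Core.s; omega

lemma start2 (hg : 4 * q + 10 ≤ g) (hq : 3 ≤ q) (CS : Core q g) {A D : Finset (Finset ℕ)}
    {f1 : Finset ℕ} (hA : A.card = 3 * g + 1) (hAD : Disjoint A D) (hCS : CS.E ⊆ D)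
    (hf1 : f1 ∈ A) (hf1S : Disjoint f1 CS.V) :
    ∃ e : Finset ℕ, e.card = 3 * g + 2 ∧ e ∉ A ∧ e ∉ D ∧ Pos2 q g A (insert e D) := by
  classical
  have hctx : Ctx q g CS A ∅ ∅ f1 := ⟨hA, hf1, hf1S, by simp, by simp, by simp⟩
  have hAsub : A ⊆ A ∪ ∅ ∪ ∅ ∪ (∅ : Finset (Finset ℕ)) := by intro x hx; simp [hx]
  have hdisj : ∀ e : Finset ℕ, e ∉ A → Disjoint A (insert e D) := by
    intro e he; rw [Finset.disjoint_insert_right]; exact ⟨he, hAD⟩
  have hCS' : ∀ e : Finset ℕ, CS.E ⊆ insert e D := fun e => hCS.trans (Finset.subset_insert _ _)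
  by_cases hPC : ∃ C : Core q g, C.E ⊆ A ∧ ∃ z, z ∉ C.V ∧ ∃ y ∈ C.I, C.star y z ∈ A ∧ C.s D z = 0
  · obtain ⟨C, hC, z, hz, y, hy, hyA, hs0⟩ := hPC
    have hs1 := s_le_one hg hA hC hz
    obtain ⟨y', hy', hn1, hn2⟩ := C.exists_free (S := A) (T := D) (z := z) (by omega)
    refine ⟨C.star y' z, C.cstar hy' hz, hn1, hn2, ?_⟩
    have hA' : A ⊆ C.E ∪ {C.star y z} := by
      have hn : C.star y z ∉ C.E := C.star_notE hz
      have h1 : insert (C.star y z) C.E ⊆ A := by
        intro e he; rcases Finset.mem_insert.1 he with rfl | he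
        · exact hyA
        · exact hC he
      have h2 : insert (C.star y z) C.E = A := by
        apply Finset.eq_of_subset_of_card_le h1
        rw [Finset.card_insert_of_notMem hn, C.cE hg, hA]
      rw [← h2]; intro e he
      rw [Finset.mem_union, Finset.mem_singleton]
      rcases Finset.mem_insert.1 he with h | h
      · exact Or.inr h
      · exact Or.inl h
    refine ⟨CS, A, ∅, ∅, ∅, f1, 1, hctx, hAsub, le_refl _, hdisj _ hn1, hCS' _, ?_,
      Or.inl ⟨rfl, rfl⟩, Or.inr ⟨rfl, ?_⟩⟩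
    · intro C' hC' z' hz'
      by_cases hc : ∃ y'' ∈ C'.I, C'.star y'' z' ∈ A
      · obtain ⟨y'', hy'', hy''A⟩ := hc
        have hsf := hctx.frame hg hC' hC
        have hm := hA' hy''A
        rw [Finset.mem_union, Finset.mem_singleton] at hm
        rcases hm with hm | hm
        · exfalso; apply hz'; rw [hsf.V]; exact C.E_sub_V hm (by simp [Core.star])
        · have := hsf.star_eq hy'' hz' hy hz hm
          obtain ⟨rfl, -, rfl⟩ := this
          rw [C'.s_insert_mem D hy' hz hn2]; omega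
      · have : C'.s A z' = 0 := by
          unfold Core.s
          rw [Finset.card_eq_zero, Finset.filter_eq_empty_iff]
          intro y'' hy'' h; exact hc ⟨y'', hy'', h⟩
        omega
    · refine ⟨C, z, hz, {y}, by simpa using hy, by simp; omega, ?_, Or.inl hC⟩
      simpa using hA'
  · have hbal : ∀ e : Finset ℕ, Bal q g A A (insert e D) := by
      intro e C hC z hz
      have hs1 := s_le_one hg hA hC hz
      have hm : C.s D z ≤ C.s (insert e D) z := C.s_mono (Finset.subset_insert _ _) z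
      by_cases hc : ∃ y ∈ C.I, C.star y z ∈ A
      · obtain ⟨y, hy, hyA⟩ := hc
        have : C.s D z ≠ 0 := fun h0 => hPC ⟨C, hC, z, hz, y, hy, hyA, h0⟩
        omega
      · have : C.s A z = 0 := by
          unfold Core.s
          rw [Finset.card_eq_zero, Finset.filter_eq_empty_iff]
          intro y'' hy'' h; exact hc ⟨y'', hy'', h⟩
        omega
    by_cases hN : TypeN q g D A
    · obtain ⟨zc, hz1, hz2⟩ := exists_fresh (A ∪ D) CS.V
      have zA : ∀ e ∈ A, zc ∉ e := fun e he => hz2 e (by simp only [Finset.mem_union]; tauto)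
      have zD : ∀ e ∈ D, zc ∉ e := fun e he => hz2 e (by simp only [Finset.mem_union]; tauto)
      obtain ⟨y, hy, hatt⟩ := hctx.new_attack hg (by omega) (F := ∅) (A := A) (D := D) (w := 0)
        (le_refl _) hz1 zA zD (by simp) (by simp)
      have hn1 : CS.star y zc ∉ A := fun hh => zA _ hh (by simp [Core.star])
      have hn2 : CS.star y zc ∉ D := fun hh => zD _ hh (by simp [Core.star])
      refine ⟨CS.star y zc, CS.cstar hy hz1, hn1, hn2, ?_⟩
      exact ⟨CS, A, ∅, ∅, ∅, f1, 0, hctx, hAsub, le_refl _, hdisj _ hn1, hCS' _, hbal _,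
        Or.inr ⟨zc, hatt⟩, Or.inl ⟨rfl, hN.mono (Finset.subset_insert _ _)⟩⟩
    · unfold TypeN at hN
      push Not at hN
      obtain ⟨C, z, hz, Y, hY, hYc, _, hCD, hAC, hnot⟩ := hN
      obtain ⟨e, he, heA⟩ := Finset.not_subset.1 hnot
      have heD : e ∉ D := Finset.disjoint_left.1 hCD he
      refine ⟨e, C.E_card he, heA, heD, ?_⟩
      exact ⟨CS, A, ∅, ∅, ∅, f1, 1, hctx, hAsub, le_refl _, hdisj _ heA, hCS' _, hbal _,
        Or.inl ⟨rfl, rfl⟩, Or.inr ⟨rfl, C, z, hz, Y, hY, hYc.le, hAC,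
        Or.inr ⟨e, he, Finset.mem_insert_self _ _⟩⟩⟩

end Pool.Agent.H460SR
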