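import Pool.Agent.H460SR.NoCopy

set_option autoImplicit false

namespace Pool.Agent.H460SR

open Finset

variable {q g : ℕ}

lemma leaf_mem {C C' : Core q g} (h : SF C C') (hg : 4 * q + 10 ≤ g) {a : ℕ} :
    (a ∈ C.X1 → insert a C.K1 ∈ C'.E → a ∈ C'.X) ∧ (a ∈ C.X2 → insert a C.K2 ∈ C'.E → a ∈ C'.X) := by
  constructor
  · intro hx hmem
    rcases C'.mem_E.1 hmem with hm | hm
    · obtain ⟨b, hb, hbe⟩ := C'.mem_G1.1 hm
      rw [← h.K1] at hbe
      have := Core.insert_inj (C.a_notK1 hx) hbe.symm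
      exact (C'.mem_X.2 (Or.inl (this ▸ hb)))
    · exfalso
      obtain ⟨b, hb, hbe⟩ := C'.mem_G2.1 hm
      rw [← h.K2] at hbe
      have hsub : C.D2 ⊆ {a} := by
        intro v hv
        have hv' : v ∈ insert a C.K1 :=
          hbe ▸ Finset.mem_insert_of_mem (C.mem_K2.2 (Or.inr hv))
        rcases Finset.mem_insert.1 hv' with h | h
        · simp [h]
        · rw [Core.mem_K1] at h
          rcases h with h | h
          · exact absurd hv (C.nI2 h)
          · exact absurd hv (C.n12 h)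
      have h5 := Finset.card_le_card hsub
      have h6 := C.c2; simp only [Finset.card_singleton] at h5; omega
  · intro hx2 hmem
    rcases C'.mem_E.1 hmem with hm | hm
    · exfalso
      obtain ⟨b, hb, hbe⟩ := C'.mem_G1.1 hm
      rw [← h.K1] at hbe
      have hsub : C.D1 ⊆ {a} := by
        intro v hv
        have hv' : v ∈ insert a C.K2 :=
          hbe ▸ Finset.mem_insert_of_mem (C.mem_K1.2 (Or.inr hv))
        rcases Finset.mem_insert.1 hv' with h | h
        · simp [h]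
        · rw [Core.mem_K2] at h
          rcases h with h | h
          · exact absurd hv (C.nI1 h)
          · exact absurd hv (C.n21 h)
      have h5 := Finset.card_le_card hsub
      have h6 := C.c1; simp only [Finset.card_singleton] at h5; omega
    · obtain ⟨b, hb, hbe⟩ := C'.mem_G2.1 hm
      rw [← h.K2] at hbe
      have := Core.insert_inj (C.b_notK2 hx2) hbe.symm
      exact (C'.mem_X.2 (Or.inr (this ▸ hb)))

lemma eq_of_E {C C' : Core q g} (h : SF C C') (hg : 4 * q + 10 ≤ g) (hE : C.E = C'.E) : C = C' := by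
  apply h.eq_of_X
  apply Finset.eq_of_subset_of_card_le
  · intro a ha
    rcases C.mem_X.1 ha with ha | ha
    · exact (leaf_mem h hg).1 ha (hE ▸ C.G1E (C.mem_G1.2 ⟨a, ha, rfl⟩))
    · exact (leaf_mem h hg).2 ha (hE ▸ C.G2E (C.mem_G2.2 ⟨a, ha, rfl⟩))
  · rw [C.cX, C'.cX]

/-- coincidence of star edges forces the first edge out of the core -/
lemma Ctx.coinc {CS : Core q g} {E1 R P : Finset (Finset ℕ)} {f1 : Finset ℕ}
    (h : Ctx q g CS E1 R P f1) (hg : 4 * q + 10 ≤ g) {C : Core q g} (hC : C.E ⊆ E1)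
    {zc y y' : ℕ} (hz : ∀ e ∈ E1, zc ∉ e) (hy : y ∈ CS.I)
    (he : CS.star y zc = C.star y' zc) : C.E = E1.erase f1 := by
  have hzV := h.E1V hC hg hz
  have hXS : ∀ v ∈ C.X, v ∈ CS.V := by
    intro v hv
    have h1 : v ∈ CS.star y zc := by rw [he]; simp [Core.star, hv]
    simp only [Core.star, Finset.mem_insert] at h1
    rcases h1 with h1 | h1 | h1
    · exact absurd (h1 ▸ C.XV hv) hzV
    · exact h1 ▸ CS.IV hy
    · exact CS.XV h1
  have hf : f1 ∉ C.E := by
    intro h1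
    have hex : ∃ v ∈ C.X, v ∈ f1 := by
      rcases C.mem_E.1 h1 with h2 | h2
      · obtain ⟨a, _, rfl⟩ := C.mem_G1.1 h2
        obtain ⟨v, hv⟩ : C.X2.Nonempty := by rw [← Finset.card_pos, C.cX2]; omega
        exact ⟨v, C.mem_X.2 (Or.inr hv), Finset.mem_insert_of_mem (C.b_K1 hv)⟩
      · obtain ⟨a, _, rfl⟩ := C.mem_G2.1 h2
        obtain ⟨v, hv⟩ : C.X1.Nonempty := by rw [← Finset.card_pos, C.cX1]; omega
        exact ⟨v, C.mem_X.2 (Or.inl hv), Finset.mem_insert_of_mem (C.a_K2 hv)⟩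
    obtain ⟨v, hv, hvf⟩ := hex
    exact Finset.disjoint_left.1 h.f1S hvf (hXS v hv)
  apply Finset.eq_of_subset_of_card_le
  · intro e he; rw [Finset.mem_erase]; exact ⟨fun h1 => hf (h1 ▸ he), hC he⟩
  · rw [Finset.card_erase_of_mem h.f1m, h.cE1, C.cE hg]; omega

/-- two coincident cores are equal -/
lemma Ctx.coinc_unique {CS : Core q g} {E1 R P : Finset (Finset ℕ)} {f1 : Finset ℕ}
    (h : Ctx q g CS E1 R P f1) (hg : 4 * q + 10 ≤ g) {C C' : Core q g} (hC : C.E ⊆ E1)
    (hC' : C'.E ⊆ E1) {zc y1 y1' y2 y2' : ℕ} (hz : ∀ e ∈ E1, zc ∉ e) (hy1 : y1 ∈ CS.I)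
    (hy2 : y2 ∈ CS.I)
    (he1 : CS.star y1 zc = C.star y1' zc) (he2 : CS.star y2 zc = C'.star y2' zc) : C = C' := by
  apply eq_of_E (h.frame hg hC hC') hg
  rw [h.coinc hg hC hz hy1 he1, h.coinc hg hC' hz hy2 he2]

/-- the state of the defender's current attack -/
structure Att (CS : Core q g) (E1 P F A D : Finset (Finset ℕ)) (w zc : ℕ) : Prop where
  zS : zc ∉ CS.V
  zE : ∀ e ∈ E1, zc ∉ e
  zP : ∀ p ∈ P, zc ∉ p
  s1 : CS.s D zc + 1 ≤ q
  sF : F.card + 1 ≤ w + CS.s D zc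
  sb : CS.s A zc + 1 ≤ CS.s D zc
  sb2 : CS.s D zc = 1 ∨ CS.s A zc + 2 ≤ CS.s D zc
  J : ∀ C : Core q g, C.E ⊆ E1 → (∃ y ∈ CS.I, CS.star y zc ∉ A ∧ CS.star y zc ∉ D ∧
    ∃ y' ∈ C.I, CS.star y zc = C.star y' zc) → C.s A zc + 1 ≤ C.s D zc

def Bal (q g : ℕ) (E1 A D : Finset (Finset ℕ)) : Prop :=
  ∀ C : Core q g, C.E ⊆ E1 → ∀ z, z ∉ C.V → C.s A z ≤ C.s D z

/-- positions of the second phase (attacker to move) -/
structure P2 (CS : Core q g) (E1 R P F A D : Finset (Finset ℕ)) (f1 : Finset ℕ) (w : ℕ) :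
    Prop where
  ctx : Ctx q g CS E1 R P f1
  hA : A ⊆ E1 ∪ R ∪ P ∪ F
  hE1 : E1 ⊆ A
  hAD : Disjoint A D
  hCS : CS.E ⊆ D
  bal : Bal q g E1 A D
  att : (w = 1 ∧ F = ∅) ∨ ∃ zc, Att CS E1 P F A D w zc
  typ : (w = 0 ∧ TypeN q g D E1) ∨ (w = 1 ∧ TypeP q g D E1)

lemma P2.Fcard {CS : Core q g} {E1 R P F A D : Finset (Finset ℕ)} {f1 : Finset ℕ} {w : ℕ}
    (h : P2 CS E1 R P F A D f1 w) (hq : 2 ≤ q) : F.card + 2 ≤ w + q := by
  rcases h.att with ⟨h1, h2⟩ | ⟨zc, ha⟩
  · rw [h2]; simp; omega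
  · have := ha.s1; have := ha.sF; omega

lemma P2.star_lt {CS : Core q g} {E1 R P F A D : Finset (Finset ℕ)} {f1 : Finset ℕ} {w : ℕ}
    (h : P2 CS E1 R P F A D f1 w) {f : Finset ℕ} (hf : f ∉ D) :
    ∀ C : Core q g, C.E ⊆ E1 → ∀ z, z ∉ C.V → C.s (insert f A) z < q := by
  intro C hC z hz
  have h1 := C.s_insert_le A f hz
  have h2 := h.bal C hC z hz
  have h3 : Disjoint (insert f A) D := by
    rw [Finset.disjoint_insert_left]; exact ⟨hf, h.hAD⟩
  have h4 := C.s_disj h3 z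
  omega

lemma P2.safe {CS : Core q g} {E1 R P F A D : Finset (Finset ℕ)} {f1 : Finset ℕ} {w : ℕ}
    (h : P2 CS E1 R P F A D f1 w) (hg : 4 * q + 10 ≤ g) (hq : 2 ≤ q) {f : Finset ℕ} (hf : f ∉ D) :
    ¬ Copy q g (insert f A) := by
  have hF := h.Fcard hq
  have hF' : (insert f F).card ≤ F.card + 1 := Finset.card_insert_le _ _
  refine h.ctx.noCopy hg hq (F := insert f F) (D := D) ?_ ?_ (h.star_lt hf) ?_
  · intro e he
    rcases Finset.mem_insert.1 he with rfl | he
    · simp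
    · have := h.hA he
      simp only [Finset.mem_union, Finset.mem_insert] at this ⊢
      tauto
  · rw [Finset.disjoint_insert_left]; exact ⟨hf, h.hAD⟩
  · rcases h.typ with ⟨h1, h2⟩ | ⟨h1, h2⟩
    · left; exact ⟨by omega, h2⟩
    · right; exact ⟨by omega, h2⟩

/-- starting a new attack -/
lemma Ctx.new_attack {CS : Core q g} {E1 R P : Finset (Finset ℕ)} {f1 : Finset ℕ}
    (h : Ctx q g CS E1 R P f1) (hg : 4 * q + 10 ≤ g) (hq : 2 ≤ q)
    {F A D : Finset (Finset ℕ)} {w zc : ℕ} (hE1 : E1 ⊆ A) (zS : zc ∉ CS.V)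
    (zA : ∀ e ∈ A, zc ∉ e) (zD : ∀ e ∈ D, zc ∉ e) (zP : ∀ p ∈ P, zc ∉ p) (hF : F.card ≤ w) :
    ∃ y ∈ CS.I, Att CS E1 P F A (insert (CS.star y zc) D) w zc := by
  have zE : ∀ e ∈ E1, zc ∉ e := fun e he => zA e (hE1 he)
  have hnD : ∀ y, CS.star y zc ∉ D := fun y hy => zD _ hy (by simp [Core.star])
  have hs0 : CS.s D zc = 0 := CS.s_zero zD
  have ha0 : CS.s A zc = 0 := CS.s_zero zA
  have common : ∀ y ∈ CS.I, (∀ C : Core q g, C.E ⊆ E1 → (∃ y2 ∈ CS.I, ∃ y' ∈ C.I,
      CS.star y2 zc = C.star y' zc) → ∃ y' ∈ C.I, CS.star y zc = C.star y' zc) →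
      Att CS E1 P F A (insert (CS.star y zc) D) w zc := by
    intro y hy hJ
    have hs1 : CS.s (insert (CS.star y zc) D) zc = 1 := by
      rw [CS.s_insert_mem D hy zS (hnD y), hs0]
    refine ⟨zS, zE, zP, by omega, by omega, by omega, Or.inl hs1, ?_⟩
    rintro C hC ⟨y2, hy2, _, _, y', hy', he⟩
    obtain ⟨y3, hy3, he3⟩ := hJ C hC ⟨y2, hy2, y', hy', he⟩
    have hzV := h.E1V hC hg zE
    have h1 : C.s A zc = 0 := C.s_zero zA
    have h2 : C.s (insert (CS.star y zc) D) zc = C.s D zc + 1 := by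
      rw [he3, C.s_insert_mem D hy3 hzV (he3 ▸ hnD y)]
    omega
  by_cases hJ : ∃ C : Core q g, C.E ⊆ E1 ∧ ∃ y ∈ CS.I, ∃ y' ∈ C.I, CS.star y zc = C.star y' zc
  · obtain ⟨C, hC, y, hy, y', hy', he⟩ := hJ
    refine ⟨y, hy, common y hy ?_⟩
    rintro C2 hC2 ⟨y2, hy2, y2', hy2', he2⟩
    have := h.coinc_unique hg hC hC2 zE hy hy2 he he2
    subst this
    exact ⟨y', hy', he⟩
  · have : CS.I.Nonempty := by rw [← Finset.card_pos]; have := CS.cI; omega
    obtain ⟨y, hy⟩ := this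
    refine ⟨y, hy, common y hy ?_⟩
    rintro C2 hC2 ⟨y2, hy2, y2', hy2', he2⟩
    exact absurd ⟨C2, hC2, y2, hy2, y2', hy2', he2⟩ hJ

lemma exists_fresh (T : Finset (Finset ℕ)) (U : Finset ℕ) : ∃ z, z ∉ U ∧ ∀ e ∈ T, z ∉ e := by
  obtain ⟨z, hz⟩ := Infinite.exists_notMem_finset (T.biUnion id ∪ U)
  simp only [Finset.mem_union, Finset.mem_biUnion, id, not_or, not_exists, not_and] at hz
  exact ⟨z, hz.2, hz.1⟩

/-- the second-phase position predicate -/
def Pos2 (q g : ℕ) (A D : Finset (Finset ℕ)) : Prop :=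
  ∃ (CS : Core q g) (E1 R P F : Finset (Finset ℕ)) (f1 : Finset ℕ) (w : ℕ),
    P2 CS E1 R P F A D f1 w

lemma Ctx.addR {CS : Core q g} {E1 R P : Finset (Finset ℕ)} {f1 f : Finset ℕ}
    (h : Ctx q g CS E1 R P f1) {C : Core q g} (hC : C.E ⊆ E1) {y z : ℕ} (hy : y ∈ C.I)
    (hz : z ∉ C.V) (hf : f = C.star y z) : Ctx q g CS E1 (insert f R) P f1 := by
  refine ⟨h.cE1, h.f1m, h.f1S, h.hP, h.hPu, ?_⟩
  intro r hr
  rcases Finset.mem_insert.1 hr with rfl | hr
  · exact ⟨C, hC, y, hy, z, hz, hf⟩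
  · exact h.hR r hr

lemma Ctx.addP {CS : Core q g} {E1 R P : Finset (Finset ℕ)} {f1 f : Finset ℕ}
    (h : Ctx q g CS E1 R P f1) {y z : ℕ} (hy : y ∈ CS.I)
    (hz : z ∉ CS.V) (hzE : ∀ e ∈ E1, z ∉ e) (hzP : ∀ p ∈ P, z ∉ p) (hf : f = CS.star y z) :
    Ctx q g CS E1 R (insert f P) f1 := by
  have hz1 : ∀ u, u ∉ CS.V → u ∈ f → u = z := by
    intro u hu huf
    rw [hf] at huf; simp only [Core.star, Finset.mem_insert] at huf
    rcases huf with h1 | h1 | h1
    · exact h1
    · exact absurd (h1 ▸ CS.IV hy) hu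
    · exact absurd (CS.XV h1) hu
  refine ⟨h.cE1, h.f1m, h.f1S, ?_, ?_, h.hR⟩
  · intro p hp
    rcases Finset.mem_insert.1 hp with rfl | hp
    · exact ⟨y, hy, z, hz, hzE, hf⟩
    · exact h.hP p hp
  · intro p hp p' hp' u hu hup hup'
    rcases Finset.mem_insert.1 hp with k1 | k1 <;> rcases Finset.mem_insert.1 hp' with k2 | k2
    · rw [k1, k2]
    · have := hz1 u hu (k1 ▸ hup)
      exact absurd (this ▸ hup') (hzP p' k2)
    · have := hz1 u hu (k2 ▸ hup')
      exact absurd (this ▸ hup) (hzP p k1)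
    · exact h.hPu p k1 p' k2 u hu hup hup'

lemma P2.step {CS : Core q g} {E1 R P F A D : Finset (Finset ℕ)} {f1 : Finset ℕ} {w : ℕ}
    (h : P2 CS E1 R P F A D f1 w) (hg : 4 * q + 10 ≤ g) (hq : 2 ≤ q) {f : Finset ℕ}
    (hfA : f ∉ A) (hfD : f ∉ D) :
    ∃ e : Finset ℕ, e.card = 3 * g + 2 ∧ e ∉ insert f A ∧ e ∉ D ∧
      (Pos2 q g (insert f A) (insert e D) ∨ Copy q g (insert e D)) := by
  classical
  have hfAD : Disjoint (insert f A) D := by
    rw [Finset.disjoint_insert_left]; exact ⟨hfD, h.hAD⟩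
  have hdisj : ∀ e : Finset ℕ, e ∉ insert f A → Disjoint (insert f A) (insert e D) := by
    intro e he; rw [Finset.disjoint_insert_right]; exact ⟨he, hfAD⟩
  have htyp : ∀ e : Finset ℕ, (w = 0 ∧ TypeN q g (insert e D) E1) ∨
      (w = 1 ∧ TypeP q g (insert e D) E1) := by
    intro e
    rcases h.typ with ⟨h1, h2⟩ | ⟨h1, h2⟩
    · exact Or.inl ⟨h1, h2.mono (Finset.subset_insert _ _)⟩
    · exact Or.inr ⟨h1, h2.mono (Finset.subset_insert _ _)⟩
  have hwin : ∀ (e : Finset ℕ) (zc : ℕ), zc ∉ CS.V → q ≤ CS.s (insert e D) zc →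
      Copy q g (insert e D) := by
    intro e zc hz hs
    exact ⟨CS, zc, hz, h.hCS.trans (Finset.subset_insert _ _), hs⟩
  by_cases hR : ∃ C : Core q g, C.E ⊆ E1 ∧ ∃ y ∈ C.I, ∃ z, z ∉ C.V ∧ f = C.star y z ∧
      C.s D z ≤ C.s A z
  · -- forced response
    obtain ⟨C, hC, y, hy, z, hz, hf, hle⟩ := hR
    have hs1 : C.s (insert f A) z = C.s A z + 1 := by
      rw [hf]; exact C.s_insert_mem A hy hz (hf ▸ hfA)
    have hlt := h.star_lt hfD C hC z hz
    have hbal := h.bal C hC z hz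
    obtain ⟨y', hy', hn1, hn2⟩ := C.exists_free (S := insert f A) (T := D) (z := z) (by omega)
    refine ⟨C.star y' z, C.cstar hy' hz, hn1, hn2, ?_⟩
    set e := C.star y' z with he
    have hsD : C.s (insert e D) z = C.s D z + 1 := C.s_insert_mem D hy' hz hn2
    have hother : ∀ C' : Core q g, C'.E ⊆ E1 → ∀ z', z' ∉ C'.V → ¬ (C' = C ∧ z' = z) →
        C'.s (insert f A) z' = C'.s A z' := by
      intro C' hC' z' hz' hne
      apply C'.s_insert_not
      intro u hu heq
      have := (h.ctx.frame hg hC' hC).star_eq hu hz' hy hz (heq.trans hf)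
      exact hne ⟨this.1, this.2.2⟩
    have hbal' : Bal q g E1 (insert f A) (insert e D) := by
      intro C' hC' z' hz'
      by_cases hc : C' = C ∧ z' = z
      · obtain ⟨rfl, rfl⟩ := hc; omega
      · rw [hother C' hC' z' hz' hc]
        exact (h.bal C' hC' z' hz').trans (C'.s_mono (Finset.subset_insert _ _) z')
    have hctx := h.ctx.addR hC hy hz hf
    have hA' : insert f A ⊆ E1 ∪ insert f R ∪ P ∪ F := by
      intro x hx
      rcases Finset.mem_insert.1 hx with rfl | hx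
      · simp
      · have := h.hA hx
        simp only [Finset.mem_union, Finset.mem_insert] at this ⊢
        tauto
    rcases h.att with ⟨h1, h2⟩ | ⟨zc, ha⟩
    · left
      exact ⟨CS, E1, insert f R, P, F, f1, w, hctx, hA', h.hE1.trans (Finset.subset_insert _ _),
        hdisj e hn1, h.hCS.trans (Finset.subset_insert _ _), hbal', Or.inl ⟨h1, h2⟩, htyp e⟩
    · -- f is not in the attack block
      have hnb : ∀ y0 ∈ CS.I, CS.star y0 zc ≠ f := by
        intro y0 hy0 heq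
        have hzV := h.ctx.E1V hC hg ha.zE
        have hzz : zc = z := by
          have : zc ∈ C.star y z := by rw [← hf, ← heq]; simp [Core.star]
          simp only [Core.star, Finset.mem_insert] at this
          rcases this with h1 | h1 | h1
          · exact h1
          · exact absurd (h1 ▸ C.IV hy) hzV
          · exact absurd (C.XV h1) hzV
        subst hzz
        have := ha.J C hC ⟨y0, hy0, heq ▸ hfA, heq ▸ hfD, y, hy, heq.trans hf⟩
        omega
      have hsA : CS.s (insert f A) zc = CS.s A zc := CS.s_insert_not A f hnb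
      have hmono : CS.s D zc ≤ CS.s (insert e D) zc := CS.s_mono (Finset.subset_insert _ _) zc
      have hle1 := CS.s_insert_le D e ha.zS
      by_cases hw : q ≤ CS.s (insert e D) zc
      · right; exact hwin e zc ha.zS hw
      · left
        refine ⟨CS, E1, insert f R, P, F, f1, w, hctx, hA', h.hE1.trans (Finset.subset_insert _ _),
          hdisj e hn1, h.hCS.trans (Finset.subset_insert _ _), hbal', Or.inr ⟨zc, ?_⟩, htyp e⟩
        have g1 := ha.s1; have g2 := ha.sF; have g3 := ha.sb; have g4 := ha.sb2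
        refine ⟨ha.zS, ha.zE, ha.zP, by omega, by omega, by omega, by omega, ?_⟩
        rintro C' hC' ⟨y0, hy0, hn3, hn4, y0', hy0', heq⟩
        have hJ := ha.J C' hC' ⟨y0, hy0, fun hh => hn3 (Finset.mem_insert_of_mem hh),
          fun hh => hn4 (Finset.mem_insert_of_mem hh), y0', hy0', heq⟩
        have hzV := h.ctx.E1V hC' hg ha.zE
        have hm' : C'.s D zc ≤ C'.s (insert e D) zc := C'.s_mono (Finset.subset_insert _ _) zc
        by_cases hc : C' = C ∧ zc = z
        · obtain ⟨rfl, rfl⟩ := hc; omega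
        · rw [hother C' hC' zc hzV hc]; omega
  · -- not forced
    have hbal' : ∀ e : Finset ℕ, Bal q g E1 (insert f A) (insert e D) := by
      intro e C' hC' z' hz'
      have hm : C'.s D z' ≤ C'.s (insert e D) z' := C'.s_mono (Finset.subset_insert _ _) z'
      by_cases hc : ∃ y ∈ C'.I, C'.star y z' = f
      · obtain ⟨y, hy, hye⟩ := hc
        have h1 : ¬ (C'.s D z' ≤ C'.s A z') := fun hh =>
          hR ⟨C', hC', y, hy, z', hz', hye.symm, hh⟩
        have h2 := C'.s_insert_le A f hz'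
        omega
      · have h1 : C'.s (insert f A) z' = C'.s A z' :=
          C'.s_insert_not A f (fun y hy hh => hc ⟨y, hy, hh⟩)
        have := h.bal C' hC' z' hz'
        omega
    have hAF : insert f A ⊆ E1 ∪ R ∪ P ∪ insert f F := by
      intro x hx
      rcases Finset.mem_insert.1 hx with rfl | hx
      · simp
      · have := h.hA hx
        simp only [Finset.mem_union, Finset.mem_insert] at this ⊢
        tauto
    have hAP : insert f A ⊆ E1 ∪ R ∪ insert f P ∪ F := by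
      intro x hx
      rcases Finset.mem_insert.1 hx with rfl | hx
      · simp
      · have := h.hA hx
        simp only [Finset.mem_union, Finset.mem_insert] at this ⊢
        tauto
    have hE1' : E1 ⊆ insert f A := h.hE1.trans (Finset.subset_insert _ _)
    -- new attack helper
    have hnew : ∀ P' F' : Finset (Finset ℕ), Ctx q g CS E1 R P' f1 →
        insert f A ⊆ E1 ∪ R ∪ P' ∪ F' → F'.card ≤ w →
        ∃ e : Finset ℕ, e.card = 3 * g + 2 ∧ e ∉ insert f A ∧ e ∉ D ∧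
        (Pos2 q g (insert f A) (insert e D) ∨ Copy q g (insert e D)) := by
      intro P' F' hctx' hA' hF'
      obtain ⟨zc, hz1, hz2⟩ := exists_fresh (insert f A ∪ D ∪ P') CS.V
      have zA : ∀ e ∈ insert f A, zc ∉ e := fun e he => hz2 e (by simp only [Finset.mem_union]; tauto)
      have zD : ∀ e ∈ D, zc ∉ e := fun e he => hz2 e (by simp only [Finset.mem_union]; tauto)
      have zP : ∀ e ∈ P', zc ∉ e := fun e he => hz2 e (by simp only [Finset.mem_union]; tauto)
      obtain ⟨y, hy, hatt⟩ := hctx'.new_attack hg hq (F := F') (w := w) hE1' hz1 zA zD zP hF'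
      have hn1 : CS.star y zc ∉ insert f A := fun hh => zA _ hh (by simp [Core.star])
      have hn2 : CS.star y zc ∉ D := fun hh => zD _ hh (by simp [Core.star])
      refine ⟨CS.star y zc, CS.cstar hy hz1, hn1, hn2, Or.inl ?_⟩
      exact ⟨CS, E1, R, P', F', f1, w, hctx', hA', hE1', hdisj _ hn1,
        h.hCS.trans (Finset.subset_insert _ _), hbal' _, Or.inr ⟨zc, hatt⟩, htyp _⟩
    rcases h.att with ⟨h1, h2⟩ | ⟨zc, ha⟩
    · apply hnew P (insert f F) h.ctx hAF
      rw [h2, h1]; simp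
    · by_cases hB : (∃ y ∈ CS.I, CS.star y zc = f) ∧ CS.s D zc = 1
      · obtain ⟨⟨y, hy, hye⟩, hs⟩ := hB
        apply hnew (insert f P) F (h.ctx.addP hy ha.zS ha.zE ha.zP hye.symm) hAP
        have := ha.sF; omega
      · -- continue the attack
        have hcount : CS.s (insert f A) zc + CS.s D zc + 2 < 2 * q ∧
            CS.s (insert f A) zc + 1 ≤ CS.s D zc := by
          have g1 := ha.s1; have g3 := ha.sb; have g4 := ha.sb2
          by_cases hs : CS.s D zc = 1
          · have hnb : ∀ y0 ∈ CS.I, CS.star y0 zc ≠ f := fun y0 hy0 hh => hB ⟨⟨y0, hy0, hh⟩, hs⟩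
            rw [CS.s_insert_not A f hnb]; omega
          · have := CS.s_insert_le A f ha.zS
            rcases g4 with g4 | g4
            · exact absurd g4 hs
            · omega
        have hch : ∃ y ∈ CS.I, CS.star y zc ∉ insert f A ∧ CS.star y zc ∉ D ∧
            ((∃ C : Core q g, C.E ⊆ E1 ∧ ∃ y0 ∈ CS.I, CS.star y0 zc ∉ insert f A ∧
              CS.star y0 zc ∉ D ∧ ∃ y' ∈ C.I, CS.star y0 zc = C.star y' zc) →
              ∃ C : Core q g, C.E ⊆ E1 ∧ ∃ y' ∈ C.I, CS.star y zc = C.star y' zc) := by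
          by_cases hJ : ∃ C : Core q g, C.E ⊆ E1 ∧ ∃ y0 ∈ CS.I, CS.star y0 zc ∉ insert f A ∧
              CS.star y0 zc ∉ D ∧ ∃ y' ∈ C.I, CS.star y0 zc = C.star y' zc
          · obtain ⟨C, hC, y0, hy0, k1, k2, y', hy', heq⟩ := hJ
            exact ⟨y0, hy0, k1, k2, fun _ => ⟨C, hC, y', hy', heq⟩⟩
          · obtain ⟨y, hy, k1, k2⟩ := CS.exists_free hcount.1
            exact ⟨y, hy, k1, k2, fun hh => absurd hh hJ⟩
        obtain ⟨y, hy, hn1, hn2, hJ⟩ := hch
        refine ⟨CS.star y zc, CS.cstar hy ha.zS, hn1, hn2, ?_⟩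
        have hsD : CS.s (insert (CS.star y zc) D) zc = CS.s D zc + 1 :=
          CS.s_insert_mem D hy ha.zS hn2
        by_cases hw : q ≤ CS.s (insert (CS.star y zc) D) zc
        · right; exact hwin _ zc ha.zS hw
        · left
          refine ⟨CS, E1, R, P, insert f F, f1, w, h.ctx, hAF, hE1', hdisj _ hn1,
            h.hCS.trans (Finset.subset_insert _ _), hbal' _, Or.inr ⟨zc, ?_⟩, htyp _⟩
          have hFc : (insert f F).card ≤ F.card + 1 := Finset.card_insert_le _ _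
          have g2 := ha.sF
          refine ⟨ha.zS, ha.zE, ha.zP, by omega, by omega, by omega, by omega, ?_⟩
          rintro C' hC' ⟨y0, hy0, hn3, hn4, y0', hy0', heq⟩
          have hn4' : CS.star y0 zc ∉ D := fun hh => hn4 (Finset.mem_insert_of_mem hh)
          obtain ⟨C, hC, y', hy', heq'⟩ := hJ ⟨C', hC', y0, hy0, hn3, hn4', y0', hy0', heq⟩
          have hCC := h.ctx.coinc_unique hg hC hC' ha.zE hy hy0 heq' heq
          subst hCC
          have hJ0 := ha.J C hC ⟨y0, hy0, fun hh => hn3 (Finset.mem_insert_of_mem hh),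
            hn4', y0', hy0', heq⟩
          have hzV := h.ctx.E1V hC hg ha.zE
          have k1 := C.s_insert_le A f hzV
          have k2 : C.s (insert (CS.star y zc) D) zc = C.s D zc + 1 := by
            rw [heq', C.s_insert_mem D hy' hzV (heq' ▸ hn2)]
          omega

end Pool.Agent.H460SR
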